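import Pool.Agent.U672.ST.Smooth

/-!
# Sums of quasi-homogeneous polynomials in few variables, and of trilinear forms
-/

set_option autoImplicit false

open CategoryTheory AlgebraicGeometry MvPolynomial Pool.Agent.Y116.UV Pool.Agent.Z125.UN

namespace Pool.Agent.U672.ST

/-- The ring of functions `k[x] / (f - c)` of the fibre `f = c`. -/
abbrev Fib {k : Type} [Field k] {σ : Type} (f : MvPolynomial σ k) (c : k) : Type :=
  MvPolynomial σ k ⧸ Ideal.span {f - C c}

/-- The polynomial `f` in the variables `σ` is quasi-homogeneous and `σ` has at most `d + 1` elements, or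
`f` is a trilinear form one of whose blocks of variables has at most `d + 2` elements. -/
def Elem {k : Type} [Field k] {σ : Type} (d : ℕ) (f : MvPolynomial σ k) : Prop :=
  (QuasiHom f ∧ Nat.card σ ≤ d + 1) ∨
    ∃ (a b c : ℕ) (e : Fin a ⊕ (Fin b ⊕ Fin c) ≃ σ) (T : Fin a → Fin b → Fin c → k),
      (a ≤ d + 2 ∨ b ≤ d + 2 ∨ c ≤ d + 2) ∧ f = rename e (tri T)

variable {k : Type} [Field k] {P : Sch k → Prop} {σ : Type}

/-- the fibres as pieces -/
noncomputable def fibE (f : MvPolynomial σ k) (c : k) : Fib f c ≃ₐ[k] Pc (lev f c) 1 :=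
  (Ideal.quotientEquivAlgOfEq k (by
    congr 1
    exact (Set.range_const (ι := Unit) (c := f - C c)).symm)).trans (oneE (lev f c))

lemma fib_iff (hP : BndT P) [Finite σ] (f : MvPolynomial σ k) (c : k) :
    P (aff k (Fib f c)) ↔ P (aff k (Pc (lev f c) 1)) :=
  ⟨iso_alg hP.toUni (fibE f c), iso_alg hP.toUni (fibE f c).symm⟩

lemma wh_tri {a b c : ℕ} (T : Fin a → Fin b → Fin c → k) :
    IsWeightedHomogeneous (Sum.elim (fun _ => (1 : ℤ)) fun _ => 0) (tri T) 1 := by
  let w : Fin a ⊕ (Fin b ⊕ Fin c) → ℤ := Sum.elim (fun _ => (1 : ℤ)) fun _ => 0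
  change IsWeightedHomogeneous w (tri T) 1
  refine IsWeightedHomogeneous.sum _ _ _ fun i _ => IsWeightedHomogeneous.sum _ _ _ fun j _ =>
    IsWeightedHomogeneous.sum _ _ _ fun l _ => ?_
  have h := (((isWeightedHomogeneous_C w (T i j l)).mul
    (isWeightedHomogeneous_X k w (Sum.inl i))).mul
      (isWeightedHomogeneous_X k w (Sum.inr (Sum.inl j)))).mul
        (isWeightedHomogeneous_X k w (Sum.inr (Sum.inr l)))
  have e : (0 : ℤ) + w (Sum.inl i) + w (Sum.inr (Sum.inl j)) + w (Sum.inr (Sum.inr l)) = 1 := rfl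
  rw [e] at h
  exact h

lemma quasi_tri {a b c : ℕ} (T : Fin a → Fin b → Fin c → k) : QuasiHom (tri T) :=
  ⟨_, 1, one_ne_zero, wh_tri T⟩

lemma elem_quasi {d : ℕ} {f : MvPolynomial σ k} (h : Elem d f) : QuasiHom f := by
  rcases h with ⟨h, _⟩ | ⟨a, b, c, e, T, _, rfl⟩
  · exact h
  · exact (quasi_tri T).rename_equiv e

section dim

variable {d : ℕ} (hd : ∀ (A : Type) [CommRing A] [Algebra k A] [Algebra.FiniteType k A],
  ringKrullDim A ≤ d → P (aff k A))

include hd

lemma plane_of (hP : BndT P) (h1 : 1 ≤ d) : Plane P :=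
  dim_to_closed hP.toBnd (n := 1) fun A _ _ _ hA =>
    hd A (hA.trans (by exact_mod_cast h1))

lemma elem_good (hP : BndT P) (h1 : 1 ≤ d) [Finite σ] {f : MvPolynomial σ k} (h : Elem d f) :
    Good P f := by
  have hc : ∀ I : Ideal (MvPolynomial (Fin (d + 1)) k),
      P (aff k (MvPolynomial (Fin (d + 1)) k ⧸ I)) := dim_to_closed hP.toBnd hd
  rcases h with ⟨_, h⟩ | ⟨a, b, c, e, T, hm, rfl⟩
  · intro c
    have := Fintype.ofFinite σ
    rw [Nat.card_eq_fintype_card] at h
    exact iso_alg hP.toUni (renE (Fintype.equivFin σ) _ _).symm (piece hP.toBnd hc h _ _ _)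
  · have h2 : P (aff k (Hyp T)) :=
      of_block hP.toBnd (fun a b c' hc' T => to_tri hP.toBnd hc a b c' hc' T) T hm
    have h3 : P (aff k (Pc (lev (tri T) 1) 1)) := by
      rw [← fib_iff hP]
      unfold Hyp at h2
      unfold Fib
      rw [map_one]
      exact h2
    exact good_rename hP e (good_of_milnor hP (plane_of hd hP h1) (quasi_tri T) h3)

/-- Sums of elementary polynomials in separate variables. -/
theorem elem_sol (hP : BndT P) (h1 : 1 ≤ d) {n : ℕ} {σ : Fin n → Type} [∀ j, Finite (σ j)]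
    {f : ∀ j, MvPolynomial (σ j) k} (hf : ∀ j, Elem d (f j)) {A : Type} [CommRing A] [Algebra k A]
    [Algebra.FiniteType k A] (hA : ringKrullDim A ≤ d) (g : A) : P (aff k (Sol (tot f) g)) := by
  obtain ⟨hq, hg⟩ := good_tot hP (plane_of hd hP h1) n σ f (fun j => elem_quasi (hf j))
    (fun j => elem_good hd hP h1 (hf j))
  obtain ⟨u, D, hD, hw⟩ := hq.nat
  have hm : (Polynomial.X ^ D - Polynomial.C g).Monic := Polynomial.monic_X_pow_sub_C _ hD
  have hfin := hm.finite_adjoinRoot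
  have hft : Algebra.FiniteType k (AdjoinRoot (Polynomial.X ^ D - Polynomial.C g)) :=
    Algebra.FiniteType.trans (S := A) inferInstance inferInstance
  exact p_sol hP g hD hw hg (hd _ ((ringKrullDim_quotient_le _).trans hA))
    (hd _ ((dim_integral (A := A) _).trans hA))

end dim

/-- The closure under sums. -/
theorem milnor_tot (hP : BndT P) (h2 : Plane P) {n : ℕ} {σ : Fin n → Type} [∀ j, Finite (σ j)]
    {f : ∀ j, MvPolynomial (σ j) k} (hf : ∀ j, QuasiHom (f j))
    (h : ∀ j, P (aff k (Fib (f j) 1))) (c : k) : P (aff k (Fib (tot f) c)) := by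
  obtain ⟨_, hg⟩ := good_tot hP h2 n σ f hf fun j =>
    good_of_milnor hP h2 (hf j) ((fib_iff hP _ _).mp (h j))
  exact (fib_iff hP _ _).mpr (hg c)

/-- a common degree -/
lemma wh_tot {n : ℕ} {σ : Fin n → Type} {f : ∀ j, MvPolynomial (σ j) k} {w : ∀ j, σ j → ℤ}
    {d : Fin n → ℤ} (hf : ∀ j, IsWeightedHomogeneous (w j) (f j) (d j)) :
    IsWeightedHomogeneous (fun p : Σ j, σ j => (∏ i ∈ Finset.univ.erase p.1, d i) * w p.1 p.2)
      (tot f) (∏ i, d i) := by
  refine IsWeightedHomogeneous.sum _ _ _ fun j _ => ?_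
  have h := wh_scale (∏ i ∈ Finset.univ.erase j, d i) (hf j)
  rw [Finset.prod_erase_mul _ _ (Finset.mem_univ j)] at h
  exact wh_rename (Sigma.mk j) _ h

end Pool.Agent.U672.ST
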