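import Pool.Agent.U672.ST.Good

/-!
# The equation `f (x) = g (y)` for a quasi-homogeneous polynomial `f`
-/

set_option autoImplicit false

open CategoryTheory AlgebraicGeometry MvPolynomial Pool.Agent.Y116.UV Pool.Agent.Z125.UN
open scoped TensorProduct

namespace Pool.Agent.U672.ST

section ren

variable {R : Type} [CommRing R] {σ σ' κ : Type} (e : σ ≃ σ') (G : κ → MvPolynomial σ R)
  (w : MvPolynomial σ R)

/-- to the piece with the new names -/
noncomputable def reF : Pc G w →ₐ[R] Pc (fun i => rename e (G i)) (rename e w) :=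
  pcLift _ _ (fun s => pv _ _ (e s))
    (by
      intro i
      have h := pc_rel (fun i => rename e (G i)) (rename e w) i
      rw [← pc_aeval, aeval_rename] at h
      exact h)
    (by
      have h := pc_unit (fun i => rename e (G i)) (rename e w)
      rw [← pc_aeval, aeval_rename] at h
      exact h)

/-- to the piece with the old names -/
noncomputable def reG : Pc (fun i => rename e (G i)) (rename e w) →ₐ[R] Pc G w :=
  pcLift _ _ (fun s => pv _ _ (e.symm s))
    (by
      intro i
      rw [aeval_rename]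
      have h : ((fun s => pv G w (e.symm s)) ∘ e) = pv G w := by
        funext s
        exact congrArg (pv G w) (e.symm_apply_apply s)
      rw [h, pc_aeval, pc_rel])
    (by
      rw [aeval_rename]
      have h : ((fun s => pv G w (e.symm s)) ∘ e) = pv G w := by
        funext s
        exact congrArg (pv G w) (e.symm_apply_apply s)
      rw [h, pc_aeval]
      exact pc_unit _ _)

/-- New names for the coordinates. -/
noncomputable def renE : Pc G w ≃ₐ[R] Pc (fun i => rename e (G i)) (rename e w) :=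
  AlgEquiv.ofAlgHom (reF e G w) (reG e G w)
    (by
      apply pc_ext
      intro s
      change reF e G w (reG e G w (pv _ _ s)) = pv _ _ s
      have h1 : reG e G w (pv _ _ s) = pv _ _ (e.symm s) := pcLift_pv _ _ _ _ _ _
      have h2 : reF e G w (pv _ _ (e.symm s)) = pv _ _ (e (e.symm s)) := pcLift_pv _ _ _ _ _ _
      rw [h1, h2, e.apply_symm_apply])
    (by
      apply pc_ext
      intro s
      change reG e G w (reF e G w (pv _ _ s)) = pv _ _ s
      have h1 : reF e G w (pv _ _ s) = pv _ _ (e s) := pcLift_pv _ _ _ _ _ _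
      have h2 : reG e G w (pv _ _ (e s)) = pv _ _ (e.symm (e s)) := pcLift_pv _ _ _ _ _ _
      rw [h1, h2, e.symm_apply_apply])

end ren

variable {k : Type} [Field k] {P : Sch k → Prop} {σ τ κ : Type}

/-- new names -/
lemma lev_rename (hP : BndT P) [Finite σ] (e : σ ≃ τ) {f : MvPolynomial σ k} {c : k}
    (h : P (aff k (Pc (lev f c) 1))) : P (aff k (Pc (lev (rename e f) c) 1)) := by
  have h1 := iso_alg hP.toUni (renE e (lev f c) 1) h
  have h2 : (fun i => rename e (lev f c i)) = lev (rename e f) c := by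
    funext i
    change rename e (f - C c) = rename e f - C c
    rw [map_sub, rename_C]
  rw [h2, map_one] at h1
  exact h1

section fib

variable {f : MvPolynomial σ k} {D : ℕ} (G : κ → MvPolynomial τ k) (w g : MvPolynomial τ k)

/-- The equation `f (x) = g (y)` and the equations `G` for `y`. -/
noncomputable def eG (f : MvPolynomial σ k) (i : Option κ) : MvPolynomial (σ ⊕ τ) k :=
  adj (fun i => rename Sum.inr (G i)) (rename Sum.inl f - rename Sum.inr g) i

/-- the equations `f (x) = v ^ D`, `v ^ D = g (y)`, `G (y)` -/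
noncomputable def rE (f : MvPolynomial σ k) (D : ℕ) :
    Unit ⊕ Option κ → MvPolynomial ((σ ⊕ τ) ⊕ Unit) k :=
  Sum.elim (fun _ => rename Sum.inl (rename Sum.inl f) - C 1 * xs ^ D) fun o =>
    o.elim (xs ^ D - rename Sum.inl (rename Sum.inr g)) fun i => rename Sum.inl (rename Sum.inr (G i))

/-- the equations `f (x) = 1`, `v ^ D = g (y)`, `G (y)` -/
noncomputable def rE' (f : MvPolynomial σ k) (D : ℕ) :
    Unit ⊕ Option κ → MvPolynomial ((σ ⊕ τ) ⊕ Unit) k :=
  Sum.elim (fun _ => rename Sum.inl (rename Sum.inl f - C 1)) fun o =>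
    o.elim (xs ^ D - rename Sum.inl (rename Sum.inr g)) fun i => rename Sum.inl (rename Sum.inr (G i))

variable {G w g}

section relations

variable {Q : Type} [CommRing Q] [Algebra k Q]

lemma ea1 (φ : MvPolynomial (σ ⊕ τ) k →ₐ[k] Q)
    (e : ∀ i, φ (adj (eG G g f) (rename Sum.inr g) i) = 0) :
    ∀ i, φ (pG (lev f 0) (adj G g) i) = 0 := by
  have e1 := e none
  have e2 := e (some none)
  change φ (rename Sum.inr g) = 0 at e1
  change φ (rename Sum.inl f - rename Sum.inr g) = 0 at e2
  rw [map_sub, e1, sub_zero] at e2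
  rintro (i | (_ | i))
  · change φ (rename Sum.inl (f - C 0)) = 0
    rw [map_zero, sub_zero, e2]
  · exact e1
  · exact e (some (some i))

lemma ea2 (φ : MvPolynomial (σ ⊕ τ) k →ₐ[k] Q)
    (e : ∀ i, φ (pG (lev f 0) (adj G g) i) = 0) :
    ∀ i, φ (adj (eG G g f) (rename Sum.inr g) i) = 0 := by
  have e1 := e (Sum.inl ())
  have e2 := e (Sum.inr none)
  change φ (rename Sum.inl (f - C 0)) = 0 at e1
  change φ (rename Sum.inr g) = 0 at e2
  rw [map_zero, sub_zero] at e1
  rintro (_ | (_ | i))
  · exact e2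
  · change φ (rename Sum.inl f - rename Sum.inr g) = 0
    rw [map_sub, e1, e2, sub_zero]
  · exact e (Sum.inr (some i))

lemma eb1 (φ : MvPolynomial ((σ ⊕ τ) ⊕ Unit) k →ₐ[k] Q)
    (e : ∀ i, φ (cG (eG G g f) (rename Sum.inr g) D i) = 0) : ∀ i, φ (rE G g f D i) = 0 := by
  have e1 := e none
  have e2 := e (some none)
  change φ (xs ^ D - rename Sum.inl (rename Sum.inr g)) = 0 at e1
  change φ (rename Sum.inl (rename Sum.inl f - rename Sum.inr g)) = 0 at e2
  rintro (i | (_ | i))
  · change φ (rename Sum.inl (rename Sum.inl f) - C 1 * xs ^ D) = 0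
    rw [map_sub] at e1 ⊢
    rw [map_sub, map_sub] at e2
    rw [map_one, one_mul]
    linear_combination e2 - e1
  · exact e1
  · exact e (some (some i))

lemma eb2 (φ : MvPolynomial ((σ ⊕ τ) ⊕ Unit) k →ₐ[k] Q)
    (e : ∀ i, φ (rE G g f D i) = 0) :
    ∀ i, φ (cG (eG G g f) (rename Sum.inr g) D i) = 0 := by
  have e1 := e (Sum.inl ())
  have e2 := e (Sum.inr none)
  change φ (rename Sum.inl (rename Sum.inl f) - C 1 * xs ^ D) = 0 at e1
  change φ (xs ^ D - rename Sum.inl (rename Sum.inr g)) = 0 at e2
  rw [map_one, one_mul, map_sub] at e1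
  rintro (_ | (_ | i))
  · exact e2
  · change φ (rename Sum.inl (rename Sum.inl f - rename Sum.inr g)) = 0
    rw [map_sub] at e2
    rw [map_sub, map_sub]
    linear_combination e1 + e2
  · exact e (Sum.inr (some i))

lemma eb3 (hD : D ≠ 0) (φ : MvPolynomial ((σ ⊕ τ) ⊕ Unit) k →ₐ[k] Q)
    (e : ∀ i, φ (cG (eG G g f) (rename Sum.inr g) D i) = 0)
    (h : IsUnit (φ (rename Sum.inl (rename Sum.inr w * rename Sum.inr g)))) :
    IsUnit (φ (rename Sum.inl (rename Sum.inr w) * xs)) := by
  have e1 := e none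
  change φ (xs ^ D - rename Sum.inl (rename Sum.inr g)) = 0 at e1
  rw [map_sub, map_pow, sub_eq_zero] at e1
  rw [map_mul, map_mul, ← e1] at h
  rw [map_mul]
  exact (isUnit_of_mul_isUnit_left h).mul ((isUnit_pow_iff hD).mp (isUnit_of_mul_isUnit_right h))

lemma eb4 (φ : MvPolynomial ((σ ⊕ τ) ⊕ Unit) k →ₐ[k] Q)
    (e : ∀ i, φ (rE G g f D i) = 0) (h : IsUnit (φ (rename Sum.inl (rename Sum.inr w) * xs))) :
    IsUnit (φ (rename Sum.inl (rename Sum.inr w * rename Sum.inr g))) := by
  have e1 := e (Sum.inr none)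
  change φ (xs ^ D - rename Sum.inl (rename Sum.inr g)) = 0 at e1
  rw [map_sub, map_pow, sub_eq_zero] at e1
  rw [map_mul, map_mul, ← e1]
  rw [map_mul] at h
  exact (isUnit_of_mul_isUnit_left h).mul ((isUnit_of_mul_isUnit_right h).pow D)

end relations

lemma assoc_inl (p : MvPolynomial σ k) :
    rename (Equiv.sumAssoc σ τ Unit).symm (rename Sum.inl p) =
      rename Sum.inl (rename Sum.inl p) := by
  rw [rename_rename, rename_rename]
  rfl

lemma assoc_inr (p : MvPolynomial τ k) :
    rename (Equiv.sumAssoc σ τ Unit).symm (rename Sum.inr (rename Sum.inl p)) =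
      rename Sum.inl (rename Sum.inr p) := by
  rw [rename_rename, rename_rename, rename_rename]
  rfl

lemma assoc_xs : rename (Equiv.sumAssoc σ τ Unit).symm
    (rename Sum.inr (xs : MvPolynomial (τ ⊕ Unit) k)) = xs := by
  rw [xs, xs, rename_X, rename_X]
  rfl

lemma rE'_eq : (fun i => rename (Equiv.sumAssoc σ τ Unit).symm
    (pG (lev f 1) (cG G g D) i)) = rE' G g f D := by
  funext i
  rcases i with i | (_ | i)
  · change rename _ (rename Sum.inl (f - C 1)) = rename Sum.inl (rename Sum.inl f - C 1)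
    rw [assoc_inl, map_sub (rename Sum.inl : MvPolynomial σ k →ₐ[k] MvPolynomial (σ ⊕ τ) k),
      rename_C]
  · change rename _ (rename Sum.inr (xs ^ D - rename Sum.inl g)) =
      xs ^ D - rename Sum.inl (rename Sum.inr g)
    rw [map_sub, map_sub, map_pow, map_pow, assoc_xs, assoc_inr]
  · change rename _ (rename Sum.inr (rename Sum.inl (G i))) =
      rename Sum.inl (rename Sum.inr (G i))
    rw [assoc_inr]

/-- The equation `f (x) = g (y)`, where `f` is weighted homogeneous of degree `D`: the property is true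
if it is true for `f = 0`, `f = 1`, `g = 0` and the cyclic cover `v ^ D = g`. -/
theorem p_fib (hP : BndT P) [Finite σ] [Finite τ] (hD : D ≠ 0) {u : σ → ℤ}
    (hf : IsWeightedHomogeneous u f (D : ℤ)) (h₀ : P (aff k (Pc (lev f 0) 1)))
    (h₁ : P (aff k (Pc (lev f 1) 1))) (hz : P (aff k (Pc (adj G g) w)))
    (hc : P (aff k (Pc (cG G g D) (rename Sum.inl w * xs)))) :
    P (aff k (Pc (eG G g f) (rename Sum.inr w))) := by
  have hpw : pw (1 : MvPolynomial σ k) w = rename Sum.inr w := by
    rw [pw, map_one, one_mul]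
  refine pc_total hP.toBnd (e := rename Sum.inr g) ?_ ?_
  · have h := p_prod hP h₀ hz
    rw [hpw] at h
    exact iso_alg hP.toUni (pcSame (ea1 _ (pc_rel _ _)) (pc_unit _ _) (ea2 _ (pc_rel _ _))
      (pc_unit _ _)) h
  · apply p_cover hP (rename Sum.inr g) hD
    have h := iso_alg hP.toUni (renE (Equiv.sumAssoc σ τ Unit).symm _ _) (p_prod hP h₁ hc)
    rw [rE'_eq] at h
    have hW : rename (Equiv.sumAssoc σ τ Unit).symm (pw (1 : MvPolynomial σ k)
        (rename Sum.inl w * xs : MvPolynomial (τ ⊕ Unit) k)) =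
        rename Sum.inl (rename Sum.inr w) * xs := by
      rw [pw, map_one, one_mul, map_mul, map_mul, assoc_xs, assoc_inr]
    rw [hW] at h
    let W : MvPolynomial ((σ ⊕ τ) ⊕ Unit) k := rename Sum.inl (rename Sum.inr w) * xs
    let v : σ ⊕ τ → ℤ := Sum.elim u 0
    have hx : IsUnit (pc (rE G g f D) W xs) := pc_unit_right _ _ _
    have hx' : IsUnit (pc (rE' G g f D) W xs) := pc_unit_right _ _ _
    have h0 : ∀ p : MvPolynomial τ k, IsWeightedHomogeneous v (rename Sum.inr p) 0 := by
      intro p
      apply wh_rename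
      intro m _
      change Finsupp.linearCombination ℕ (0 : τ → ℤ) m = 0
      rw [Finsupp.linearCombination_zero]
      rfl
    have ht : ∀ p : MvPolynomial τ k, Tr v (rename Sum.inl (rename Sum.inr p) :
        MvPolynomial ((σ ⊕ τ) ⊕ Unit) k) (rename Sum.inl (rename Sum.inr p)) := fun p => Tr.wh (h0 p)
    have hr : ∀ i, Tr v (rE G g f D i) (rE' G g f D i) := by
      rintro (i | (_ | i))
      · exact Tr.level (wh_rename Sum.inl v hf) 1
      · refine ⟨0, fun S _ _ t x => ?_⟩
        change aeval _ (xs ^ D - rename Sum.inl (rename Sum.inr g)) =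
          aeval _ (xs ^ D - rename Sum.inl (rename Sum.inr g)) * _
        have e1 : aeval (Sum.elim (act v t x) fun _ : Unit => (t : S))
            (rename Sum.inl (rename Sum.inr g)) =
            aeval x (rename Sum.inr g) := by
          rw [aeval_rename, Sum.elim_comp_inl, aeval_act (h0 g), zpow_zero, Units.val_one, mul_one]
        have e2 : aeval (Sum.elim x fun _ : Unit => (t : S)) (rename Sum.inl (rename Sum.inr g)) =
            aeval x (rename Sum.inr g) := by
          rw [aeval_rename, Sum.elim_comp_inl]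
        rw [map_sub, map_sub, map_pow, map_pow, e1, e2, xs, aeval_X, aeval_X, zpow_zero,
          Units.val_one, mul_one]
        rfl
      · exact ht (G i)
    have hWT : Tr v W W := (ht w).mul Tr.xs
    have hg2 : P (aff k (Pc (rE G g f D) W)) := iso_alg hP.toUni (scaleE hr hWT hx hx').symm h
    exact iso_alg hP.toUni (pcSame (eb1 _ (pc_rel _ _)) (eb3 hD _ (pc_rel _ _) (pc_unit _ _))
      (eb2 _ (pc_rel _ _)) (eb4 _ (pc_rel _ _) (pc_unit _ _))) hg2

end fib

end Pool.Agent.U672.ST
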