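import Pool.Agent.U672.ST.Nary

/-!
# The equation `f (x) = g` over an affine scheme with a function `g`
-/

set_option autoImplicit false

open CategoryTheory AlgebraicGeometry MvPolynomial Pool.Agent.Y116.UV Pool.Agent.Z125.UN

namespace Pool.Agent.U672.ST

section pres

variable {R : Type} [CommRing R] {A : Type} [CommRing A] [Algebra R A] {n : ℕ}
  (φ : MvPolynomial (Fin n) R →ₐ[R] A) (hφ : Function.Surjective φ)

/-- the relations of the presentation -/
def kr (p : RingHom.ker φ) : MvPolynomial (Fin n) R := p.1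

lemma span_kr : Ideal.span (Set.range (kr φ)) = RingHom.ker φ := by
  have h : Set.range (kr φ) = (RingHom.ker φ : Set (MvPolynomial (Fin n) R)) := Subtype.range_coe
  rw [h, Ideal.span_eq]

/-- from the piece to the algebra -/
noncomputable def krF : Pc (kr φ) 1 →ₐ[R] A :=
  pcLift _ _ (fun s => φ (X s))
    (fun i => by
      rw [aeval_algHom_apply' φ]
      exact i.2) (by rw [map_one]; exact isUnit_one)
where
  aeval_algHom_apply' (φ : MvPolynomial (Fin n) R →ₐ[R] A) {p : MvPolynomial (Fin n) R} :
      aeval (fun s => φ (X s)) p = φ p := by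
    have h : aeval (fun s => φ (X s)) = φ := by
      apply MvPolynomial.algHom_ext
      intro s
      rw [aeval_X]
    rw [h]

lemma krF_pc (p : MvPolynomial (Fin n) R) : krF φ (pc _ _ p) = φ p := by
  rw [krF, pcLift_pc, krF.aeval_algHom_apply']

lemma krF_surj (hφ : Function.Surjective φ) : Function.Surjective (krF φ) := by
  intro a
  obtain ⟨p, rfl⟩ := hφ a
  exact ⟨pc _ _ p, krF_pc φ p⟩

lemma pc_one_surj {σ κ : Type} (G : κ → MvPolynomial σ R) : Function.Surjective (pc G 1) := by
  intro a
  obtain ⟨b, rfl⟩ := (oneE G).surjective a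
  obtain ⟨p, rfl⟩ := Ideal.Quotient.mk_surjective b
  exact ⟨p, rfl⟩

lemma krF_inj : Function.Injective (krF φ) := by
  rw [injective_iff_map_eq_zero]
  intro a ha
  obtain ⟨p, rfl⟩ := pc_one_surj (kr φ) a
  rw [krF_pc] at ha
  exact pc_zero _ _ (by rw [span_kr]; exact ha)

/-- The presentation. -/
noncomputable def krE : Pc (kr φ) 1 ≃ₐ[R] A :=
  AlgEquiv.ofBijective (krF φ) ⟨krF_inj φ, krF_surj φ hφ⟩

lemma krE_pc (p : MvPolynomial (Fin n) R) : krE φ hφ (pc _ _ p) = φ p := krF_pc φ p

end pres

section func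

variable {k : Type} [Field k] {P : Sch k → Prop} {σ : Type} {A : Type} [CommRing A] [Algebra k A]
  (f : MvPolynomial σ k) (g : A)

/-- The ring of functions `A[x] / (f (x) - g)` on the scheme of the solutions of `f (x) = g (y)`, where
`y` is a point of `Spec A`. -/
abbrev Sol : Type := MvPolynomial σ A ⧸ Ideal.span {MvPolynomial.map (algebraMap k A) f - C g}

variable {n : ℕ} (φ : MvPolynomial (Fin n) k →ₐ[k] A) (hφ : Function.Surjective φ)
  (g' : MvPolynomial (Fin n) k) (hg : φ g' = g)

include hg

lemma sol_rel : Ideal.Quotient.mk (Ideal.span {MvPolynomial.map (algebraMap k A) f - C g})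
    (MvPolynomial.map (algebraMap k A) f) = Ideal.Quotient.mk _ (C (φ g')) := by
  rw [hg, Ideal.Quotient.eq]
  exact Ideal.mem_span_singleton_self _

/-- from the piece to the ring of the solutions -/
noncomputable def slF : Pc (eG (kr φ) g' f) (rename Sum.inr 1) →ₐ[k] Sol f g :=
  pcLift _ _ (Sum.elim (fun s => Ideal.Quotient.mk _ (X s))
      fun t => Ideal.Quotient.mk _ (C (φ (X t))))
    (by
      have e1 : ∀ p : MvPolynomial σ k, aeval (fun s => (Ideal.Quotient.mk _ (X s) : Sol f g)) p =
          Ideal.Quotient.mk _ (MvPolynomial.map (algebraMap k A) p) := by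
        intro p
        have h : aeval (fun s => (Ideal.Quotient.mk _ (X s) : Sol f g)) =
            (Ideal.Quotient.mkₐ k _).comp (MvPolynomial.mapAlgHom (Algebra.ofId k A)) := by
          apply MvPolynomial.algHom_ext
          intro s
          rw [aeval_X]
          change _ = Ideal.Quotient.mk _ (MvPolynomial.map _ (X s))
          rw [map_X]
        rw [h]
        rfl
      have e2 : ∀ p : MvPolynomial (Fin n) k,
          aeval (fun t => (Ideal.Quotient.mk _ (C (φ (X t))) : Sol f g)) p =
          Ideal.Quotient.mk _ (C (φ p)) := by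
        intro p
        have h : aeval (fun t => (Ideal.Quotient.mk _ (C (φ (X t))) : Sol f g)) =
            ((Ideal.Quotient.mkₐ k _).comp (IsScalarTower.toAlgHom k A (MvPolynomial σ A))).comp
              φ := by
          apply MvPolynomial.algHom_ext
          intro s
          rw [aeval_X]
          rfl
        rw [h]
        rfl
      rintro (_ | i)
      · change aeval _ (rename Sum.inl f - rename Sum.inr g') = 0
        rw [map_sub, aeval_rename, aeval_rename, Sum.elim_comp_inl, Sum.elim_comp_inr, e1, e2,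
          sub_eq_zero]
        exact sol_rel f g φ g' hg
      · change aeval _ (rename Sum.inr (kr φ i)) = 0
        rw [aeval_rename, Sum.elim_comp_inr, e2]
        have h : φ (kr φ i) = 0 := i.2
        rw [h, map_zero, map_zero])
    (by rw [map_one, map_one]; exact isUnit_one)

omit hg in
/-- from the piece of `A` to the piece -/
noncomputable def slB : Pc (kr φ) 1 →ₐ[k] Pc (eG (kr φ) g' f) (rename Sum.inr 1) :=
  pcLift (kr φ) 1 (fun t => pv _ _ (Sum.inr t))
    (by
      intro i
      have h := pc_rel (eG (kr φ) g' f) (rename Sum.inr 1) (some i)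
      rw [← pc_aeval] at h
      change aeval _ (rename Sum.inr (kr φ i)) = 0 at h
      rw [aeval_rename] at h
      exact h)
    (by
      rw [map_one (aeval fun t => pv (eG (kr φ) g' f) (rename Sum.inr 1) (Sum.inr t))]
      exact isUnit_one)

omit hg in
lemma slB_pc (p : MvPolynomial (Fin n) k) : slB f φ g' (pc _ _ p) = pc _ _ (rename Sum.inr p) := by
  rw [slB, pcLift_pc, ← pc_aeval, aeval_rename]
  rfl

omit hg in
include hφ in
/-- from the ring `A` to the piece -/
noncomputable def slA : A →ₐ[k] Pc (eG (kr φ) g' f) (rename Sum.inr 1) :=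
  (slB f φ g').comp (krE φ hφ).symm.toAlgHom

omit hg in
lemma slA_phi (p : MvPolynomial (Fin n) k) : slA f φ hφ g' (φ p) = pc _ _ (rename Sum.inr p) := by
  have h : (krE φ hφ).symm (φ p) = pc _ _ p := by
    rw [AlgEquiv.symm_apply_eq, krE_pc]
  change slB f φ g' ((krE φ hφ).symm (φ p)) = _
  rw [h, slB_pc]

include hφ in
/-- from the ring of the solutions to the piece -/
noncomputable def slG : Sol f g →+* Pc (eG (kr φ) g' f) (rename Sum.inr 1) :=
  Ideal.Quotient.lift _ (eval₂Hom (slA f φ hφ g' : A →+* _) fun s => pv _ _ (Sum.inl s)) (by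
    intro a ha
    have h : Ideal.span {MvPolynomial.map (algebraMap k A) f - C g} ≤ RingHom.ker
        (eval₂Hom (slA f φ hφ g' : A →+* _) fun s => pv (eG (kr φ) g' f) (rename Sum.inr 1)
          (Sum.inl s)) := by
      rw [Ideal.span_le, Set.singleton_subset_iff]
      change eval₂Hom _ _ (MvPolynomial.map (algebraMap k A) f - C g) = 0
      have e := pc_rel (eG (kr φ) g' f) (rename Sum.inr 1) none
      change pc _ _ (rename Sum.inl f - rename Sum.inr g') = 0 at e
      rw [map_sub, sub_eq_zero] at e
      rw [map_sub, sub_eq_zero, eval₂Hom_map_hom, eval₂Hom_C, ← hg]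
      change _ = slA f φ hφ g' (φ g')
      rw [slA_phi, ← e, ← pc_aeval, aeval_rename, aeval_def]
      change eval₂ _ _ f = eval₂ _ _ f
      congr 1
      ext r
      exact (slA f φ hφ g').commutes r
    exact h ha)

include hφ in
/-- The solutions of `f (x) = g`, as an isomorphism of rings. -/
noncomputable def solR : Pc (eG (kr φ) g' f) (rename Sum.inr 1) ≃+* Sol f g :=
  RingEquiv.ofRingHom (slF f g φ g' hg : Pc (eG (kr φ) g' f) (rename Sum.inr 1) →+* Sol f g)
    (slG f g φ hφ g' hg)
    (by
      apply Ideal.Quotient.ringHom_ext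
      apply MvPolynomial.ringHom_ext
      · intro a
        obtain ⟨p, rfl⟩ := hφ a
        change slF f g φ g' hg (slG f g φ hφ g' hg (Ideal.Quotient.mk _ (C (φ p)))) = _
        have h1 : slG f g φ hφ g' hg (Ideal.Quotient.mk _ (C (φ p))) =
            pc _ _ (rename Sum.inr p) := by
          change eval₂Hom _ _ (C (φ p)) = _
          rw [eval₂Hom_C]
          exact slA_phi f φ hφ g' p
        rw [h1, slF, pcLift_pc, aeval_rename, Sum.elim_comp_inr]
        have h : aeval (fun t => (Ideal.Quotient.mk _ (C (φ (X t))) : Sol f g)) =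
            ((Ideal.Quotient.mkₐ k _).comp (IsScalarTower.toAlgHom k A (MvPolynomial σ A))).comp
              φ := by
          apply MvPolynomial.algHom_ext
          intro s
          rw [aeval_X]
          rfl
        rw [h]
        rfl
      · intro s
        change slF f g φ g' hg (slG f g φ hφ g' hg (Ideal.Quotient.mk _ (X s))) = _
        have h1 : slG f g φ hφ g' hg (Ideal.Quotient.mk _ (X s)) = pv _ _ (Sum.inl s) := by
          change eval₂Hom _ _ (X s) = _
          rw [eval₂Hom_X']
        rw [h1, slF, pcLift_pv]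
        rfl)
    (by
      apply pc_ringHom_ext
      · intro r
        change slG f g φ hφ g' hg (slF f g φ g' hg (algebraMap k _ r)) = algebraMap k _ r
        rw [AlgHom.commutes]
        change eval₂Hom _ _ (C (algebraMap k A r)) = _
        rw [eval₂Hom_C]
        exact (slA f φ hφ g').commutes r
      · rintro (s | t)
        · change slG f g φ hφ g' hg (slF f g φ g' hg (pv _ _ (Sum.inl s))) = pv _ _ (Sum.inl s)
          rw [slF, pcLift_pv]
          change eval₂Hom _ _ (X s) = _
          rw [eval₂Hom_X']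
        · change slG f g φ hφ g' hg (slF f g φ g' hg (pv _ _ (Sum.inr t))) = pv _ _ (Sum.inr t)
          rw [slF, pcLift_pv]
          change eval₂Hom _ _ (C (φ (X t))) = _
          rw [eval₂Hom_C]
          change slA f φ hφ g' (φ (X t)) = _
          rw [slA_phi, rename_X]
          rfl)

/-- The solutions of `f (x) = g`. -/
noncomputable def solE : Pc (eG (kr φ) g' f) (rename Sum.inr 1) ≃ₐ[k] Sol f g :=
  AlgEquiv.ofRingEquiv (f := solR f g φ hφ g' hg) fun r => (slF f g φ g' hg).commutes r

end func

section main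

variable {k : Type} [Field k] {P : Sch k → Prop} {σ : Type} [Finite σ] {A : Type} [CommRing A]
  [Algebra k A] [Algebra.FiniteType k A]

lemma va1 {n D : ℕ} {φ : MvPolynomial (Fin n) k →ₐ[k] A} {g' : MvPolynomial (Fin n) k} (hD : D ≠ 0)
    {Q : Type} [CommRing Q] [Algebra k Q] (ψ : MvPolynomial (Fin n ⊕ Unit) k →ₐ[k] Q)
    (e : ∀ i, ψ (adj (cG (kr φ) g' D) xs i) = 0) :
    ∀ i, ψ (adj (rl (adj (kr φ) g') Unit) xs i) = 0 := by
  have e1 := e none
  have e2 := e (some none)
  change ψ xs = 0 at e1
  change ψ (xs ^ D - rename Sum.inl g') = 0 at e2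
  rw [map_sub, map_pow, e1, zero_pow hD, zero_sub, neg_eq_zero] at e2
  rintro (_ | (_ | i))
  · exact e1
  · exact e2
  · exact e (some (some i))

lemma va2 {n D : ℕ} {φ : MvPolynomial (Fin n) k →ₐ[k] A} {g' : MvPolynomial (Fin n) k} (hD : D ≠ 0)
    {Q : Type} [CommRing Q] [Algebra k Q] (ψ : MvPolynomial (Fin n ⊕ Unit) k →ₐ[k] Q)
    (e : ∀ i, ψ (adj (rl (adj (kr φ) g') Unit) xs i) = 0) :
    ∀ i, ψ (adj (cG (kr φ) g' D) xs i) = 0 := by
  have e1 := e none
  have e2 := e (some none)
  change ψ xs = 0 at e1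
  change ψ (rename Sum.inl g') = 0 at e2
  rintro (_ | (_ | i))
  · exact e1
  · change ψ (xs ^ D - rename Sum.inl g') = 0
    rw [map_sub, map_pow, e1, zero_pow hD, zero_sub, neg_eq_zero, e2]
  · exact e (some (some i))

/-- The equation `f (x) = g (y)` over `Spec A` for a weighted homogeneous polynomial `f` of degree `D`:
the property is true if it is true for the fibres of `f`, for `g = 0` and for `v ^ D = g`. -/
theorem p_sol (hP : BndT P) {f : MvPolynomial σ k} (g : A) {D : ℕ} (hD : D ≠ 0) {u : σ → ℤ}
    (hf : IsWeightedHomogeneous u f (D : ℤ)) (hgood : Good P f)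
    (hz : P (aff k (A ⧸ Ideal.span {g})))
    (hc : P (aff k (AdjoinRoot (Polynomial.X ^ D - Polynomial.C g)))) :
    P (aff k (Sol f g)) := by
  obtain ⟨n, φ, hφ⟩ := Algebra.FiniteType.iff_quotient_mvPolynomial''.mp
    (inferInstance : Algebra.FiniteType k A)
  obtain ⟨g', hg⟩ := hφ g
  have hz' : P (aff k (Pc (adj (kr φ) g') 1)) := by
    have h1 : P (aff k (Pc (kr φ) 1 ⧸ Ideal.span {pc (kr φ) 1 g'})) := by
      refine iso_alg hP.toUni (Ideal.quotientEquivAlg (Ideal.span {g})
        (Ideal.span {pc (kr φ) 1 g'}) (krE φ hφ).symm ?_) hz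
      rw [Ideal.map_span, Set.image_singleton]
      congr 2
      change _ = (krE φ hφ).symm g
      rw [← hg, ← krE_pc φ hφ, AlgEquiv.symm_apply_apply]
    exact iso_alg hP.toUni (cloE (kr φ) 1 g') h1
  have hw : P (aff k (Pc (cG (kr φ) g' D) (rename Sum.inl 1))) := by
    have hft : Algebra.FiniteType k (AdjoinRoot (Polynomial.X ^ D - Polynomial.C g)) :=
      Algebra.FiniteType.trans (S := A) inferInstance inferInstance
    have hft2 : Algebra.FiniteType k (AdjoinRoot (cp (kr φ) 1 g' D)) :=
      Algebra.FiniteType.trans (S := Pc (kr φ) 1) inferInstance inferInstance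
    refine iso_alg hP.toUni (covE (kr φ) 1 g' D) ?_
    refine iso_alg hP.toUni (AdjoinRoot.mapAlgEquiv (krE φ hφ).symm _ _ ?_) hc
    have h : Polynomial.map ((krE φ hφ).symm : A →+* Pc (kr φ) 1)
        (Polynomial.X ^ D - Polynomial.C g) = cp (kr φ) 1 g' D := by
      rw [Polynomial.map_sub, Polynomial.map_pow, Polynomial.map_X, Polynomial.map_C, cp]
      congr 2
      change (krE φ hφ).symm g = _
      rw [← hg, ← krE_pc φ hφ, AlgEquiv.symm_apply_apply]
    exact Associated.of_eq h
  have hcl : P (aff k (Pc (adj (cG (kr φ) g' D) xs) (rename Sum.inl 1))) :=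
    iso_alg hP.toUni (pcSame (va1 hD _ (pc_rel _ _)) (pc_unit _ _) (va2 hD _ (pc_rel _ _))
      (pc_unit _ _)) (iso_alg hP.toUni (lineE (adj (kr φ) g') 1) hz')
  exact iso_alg hP.toUni (solE f g φ hφ g' hg)
    (p_fib hP hD hf (hgood 0) (hgood 1) hz' (pc_open hP.toBnd hw hcl))

omit [Algebra k A] [Algebra.FiniteType k A] in
lemma dim_integral (B : Type) [CommRing B] [Algebra A B] [Algebra.IsIntegral A B] :
    ringKrullDim B ≤ ringKrullDim A := by
  refine Order.krullDim_le_of_strictMono (fun p : PrimeSpectrum B =>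
    (⟨p.asIdeal.comap (algebraMap A B), inferInstance⟩ : PrimeSpectrum A)) ?_
  intro p q hpq
  obtain ⟨hle, hne⟩ := (lt_iff_le_not_ge.mp hpq)
  obtain ⟨x, hx1, hx2⟩ := Set.not_subset.mp hne
  exact Ideal.comap_lt_comap_of_integral_mem_sdiff (I := p.asIdeal) (J := q.asIdeal) hle
    ⟨hx1, hx2⟩ (Algebra.IsIntegral.isIntegral x)

/-- The equation `f (x) = g (y)` over affine schemes of dimension at most one. -/
theorem p_sol_curve (hP : BndT P)
    (h1 : ∀ (B : Type) [CommRing B] [Algebra k B] [Algebra.FiniteType k B], ringKrullDim B ≤ 1 →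
      P (aff k B)) {f : MvPolynomial σ k} (hf : QuasiHom f) (hgood : Good P f)
    (hA : ringKrullDim A ≤ 1) (g : A) : P (aff k (Sol f g)) := by
  obtain ⟨u, D, hD, hf⟩ := hf.nat
  have hm : (Polynomial.X ^ D - Polynomial.C g).Monic := Polynomial.monic_X_pow_sub_C _ hD
  have hfin := hm.finite_adjoinRoot
  have hft : Algebra.FiniteType k (AdjoinRoot (Polynomial.X ^ D - Polynomial.C g)) :=
    Algebra.FiniteType.trans (S := A) inferInstance inferInstance
  exact p_sol hP g hD hf hgood (h1 _ ((ringKrullDim_quotient_le _).trans hA))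
    (h1 _ ((dim_integral (A := A) _).trans hA))

end main

end Pool.Agent.U672.ST
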