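import Pool.Agent.U672.ST.Scale

/-!
# Sums of quasi-homogeneous polynomials in separate variables
-/

set_option autoImplicit false

open CategoryTheory AlgebraicGeometry MvPolynomial Pool.Agent.Y116.UV Pool.Agent.Z125.UN
open scoped TensorProduct

namespace Pool.Agent.U672.ST

/-- As `Bnd`, and the property is true for the product of two affine schemes if it is true for both of
them, and it is true for `Spec A` if it is true for `Spec B`, where `B` is a free `A`-module of finite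
rank `d + 1`. -/
structure BndT {k : Type} [Field k] (P : Sch k → Prop) : Prop extends Bnd True P where
  prod : ∀ (A B : Type) [CommRing A] [CommRing B] [Algebra k A] [Algebra k B]
    [Algebra.FiniteType k A] [Algebra.FiniteType k B], P (aff k A) → P (aff k B) →
      P (aff k (A ⊗[k] B))
  transfer : ∀ (A B : Type) [CommRing A] [CommRing B] [Algebra k A] [Algebra k B] [Algebra A B]
    [IsScalarTower k A B] [Algebra.FiniteType k A] (d : ℕ),
    Nonempty (Module.Basis (Fin (d + 1)) A B) → P (aff k B) → P (aff k A)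

variable {k : Type} [Field k] {P : Sch k → Prop}

section torus

variable {σ κ : Type} [Finite σ] {G : κ → MvPolynomial σ k} {w : MvPolynomial σ k}

/-- the product with the multiplicative group -/
lemma p_gm (hP : Bnd True P) (h : P (aff k (Pc G w))) : P (aff k (Gm G w)) :=
  pc_open hP (pc_poly hP Unit h) (iso_alg hP.toUni (lineE G w) h)

/-- descent from cyclic covers -/
lemma p_cover (hP : BndT P) (u : MvPolynomial σ k) {D : ℕ} (hD : D ≠ 0)
    (h : P (aff k (Pc (cG G u D) (rename Sum.inl w)))) : P (aff k (Pc G w)) := by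
  rcases subsingleton_or_nontrivial (Pc G w) with h0 | h0
  · exact p_empty hP.toBnd _ h0
  · have h1 : P (aff k (AdjoinRoot (cp G w u D))) := iso_alg hP.toUni (covE G w u D).symm h
    have hm : (cp G w u D).Monic := Polynomial.monic_X_pow_sub_C _ hD
    have hd : (cp G w u D).natDegree = (D - 1) + 1 := by
      rw [cp, Polynomial.natDegree_X_pow_sub_C]
      omega
    have b : Module.Basis (Fin (cp G w u D).natDegree) (Pc G w) (AdjoinRoot (cp G w u D)) :=
      (AdjoinRoot.powerBasis' hm).basis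
    rw [hd] at b
    exact hP.transfer (Pc G w) (AdjoinRoot (cp G w u D)) (D - 1) ⟨b⟩ h1

end torus

section wh

variable {σ σ₁ σ₂ : Type}

lemma wh_rename {σ' : Type} (e : σ → σ') (w : σ' → ℤ) {f : MvPolynomial σ k} {d : ℤ}
    (hf : IsWeightedHomogeneous (w ∘ e) f d) : IsWeightedHomogeneous w (rename e f) d := by
  intro m hm
  obtain ⟨u, hu, hu2⟩ := coeff_rename_ne_zero e f m hm
  rw [← hu, ← hf hu2]
  exact Finsupp.linearCombination_mapDomain ℕ e u

/-- the sum of two polynomials in separate variables -/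
noncomputable def sumf (f₁ : MvPolynomial σ₁ k) (f₂ : MvPolynomial σ₂ k) :
    MvPolynomial (σ₁ ⊕ σ₂) k := rename Sum.inl f₁ + rename Sum.inr f₂

/-- the polynomial `a X ^ D` -/
noncomputable def una (a : k) (D : ℕ) : MvPolynomial Unit k := C a * X () ^ D

lemma wh_sumf {w₁ : σ₁ → ℤ} {w₂ : σ₂ → ℤ} {f₁ : MvPolynomial σ₁ k} {f₂ : MvPolynomial σ₂ k} {d : ℤ}
    (h₁ : IsWeightedHomogeneous w₁ f₁ d) (h₂ : IsWeightedHomogeneous w₂ f₂ d) :
    IsWeightedHomogeneous (Sum.elim w₁ w₂) (sumf f₁ f₂) d :=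
  (wh_rename Sum.inl (Sum.elim w₁ w₂) h₁).add (wh_rename Sum.inr (Sum.elim w₁ w₂) h₂)

lemma wh_una (a : k) (D : ℕ) : IsWeightedHomogeneous (fun _ => (1 : ℤ)) (una a D) (D : ℤ) := by
  have h1 : IsWeightedHomogeneous (fun _ : Unit => (1 : ℤ)) (C a : MvPolynomial Unit k) 0 :=
    isWeightedHomogeneous_C _ _
  have h2 : IsWeightedHomogeneous (fun _ : Unit => (1 : ℤ)) (X () : MvPolynomial Unit k) 1 :=
    isWeightedHomogeneous_X _ _ _
  have h3 := h1.mul (h2.pow D)
  rw [nsmul_eq_mul, mul_one, zero_add] at h3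
  exact h3

end wh

section level

variable {σ σ₁ σ₂ : Type}

/-- the equation `f = c` -/
noncomputable def lev (f : MvPolynomial σ k) (c : k) (_ : Unit) : MvPolynomial σ k := f - C c

/-- The property is true for all the fibres `f = c`, `c ∈ k`. -/
def Good (P : Sch k → Prop) (f : MvPolynomial σ k) : Prop := ∀ c : k, P (aff k (Pc (lev f c) 1))

section relations

variable {Q : Type} [CommRing Q] [Algebra k Q] {f₁ : MvPolynomial σ₁ k} {f₂ : MvPolynomial σ₂ k}
  {f : MvPolynomial σ k} {c : k} {D : ℕ}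

lemma la1 (φ : MvPolynomial (σ₁ ⊕ σ₂) k →ₐ[k] Q)
    (e : ∀ i, φ (adj (lev (sumf f₁ f₂) 0) (rename Sum.inl f₁) i) = 0) :
    ∀ i, φ (pG (lev f₁ 0) (lev f₂ 0) i) = 0 := by
  have e1 := e none
  have e2 := e (some ())
  change φ (rename Sum.inl f₁) = 0 at e1
  change φ (rename Sum.inl f₁ + rename Sum.inr f₂ - C 0) = 0 at e2
  rw [map_zero, sub_zero, map_add, e1, zero_add] at e2
  rintro (i | i)
  · change φ (rename Sum.inl (f₁ - C 0)) = 0
    rw [map_zero, sub_zero, e1]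
  · change φ (rename Sum.inr (f₂ - C 0)) = 0
    rw [map_zero, sub_zero, e2]

lemma la2 (φ : MvPolynomial (σ₁ ⊕ σ₂) k →ₐ[k] Q)
    (e : ∀ i, φ (pG (lev f₁ 0) (lev f₂ 0) i) = 0) :
    ∀ i, φ (adj (lev (sumf f₁ f₂) 0) (rename Sum.inl f₁) i) = 0 := by
  have e1 := e (Sum.inl ())
  have e2 := e (Sum.inr ())
  change φ (rename Sum.inl (f₁ - C 0)) = 0 at e1
  change φ (rename Sum.inr (f₂ - C 0)) = 0 at e2
  rw [map_zero, sub_zero] at e1 e2
  rintro (_ | i)
  · exact e1
  · change φ (rename Sum.inl f₁ + rename Sum.inr f₂ - C 0) = 0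
    rw [map_zero, sub_zero, map_add, e1, e2, zero_add]

/-- the relations `f₁ = v ^ D`, `f₂ = - v ^ D` -/
noncomputable def rA (f₁ : MvPolynomial σ₁ k) (f₂ : MvPolynomial σ₂ k) (D : ℕ) :
    Unit ⊕ Unit → MvPolynomial ((σ₁ ⊕ σ₂) ⊕ Unit) k :=
  Sum.elim (fun _ => rename Sum.inl (rename Sum.inl f₁) - C 1 * xs ^ D)
    (fun _ => rename Sum.inl (rename Sum.inr f₂) - C (-1) * xs ^ D)

lemma lb1 (φ : MvPolynomial ((σ₁ ⊕ σ₂) ⊕ Unit) k →ₐ[k] Q)
    (e : ∀ i, φ (cG (lev (sumf f₁ f₂) 0) (rename Sum.inl f₁) D i) = 0) :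
    ∀ i, φ (rA f₁ f₂ D i) = 0 := by
  have e1 := e none
  have e2 := e (some ())
  change φ (xs ^ D - rename Sum.inl (rename Sum.inl f₁)) = 0 at e1
  change φ (rename Sum.inl (rename Sum.inl f₁ + rename Sum.inr f₂ - C 0)) = 0 at e2
  rw [map_zero, sub_zero, map_add, map_add] at e2
  rw [map_sub] at e1
  rintro (i | i)
  · change φ (rename Sum.inl (rename Sum.inl f₁) - C 1 * xs ^ D) = 0
    rw [map_one, one_mul, map_sub]
    linear_combination (-1 : Q) * e1
  · change φ (rename Sum.inl (rename Sum.inr f₂) - C (-1) * xs ^ D) = 0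
    rw [map_neg, map_one, map_sub, map_mul, map_neg, map_one]
    linear_combination e1 + e2

lemma lb2 (φ : MvPolynomial ((σ₁ ⊕ σ₂) ⊕ Unit) k →ₐ[k] Q)
    (e : ∀ i, φ (rA f₁ f₂ D i) = 0) :
    ∀ i, φ (cG (lev (sumf f₁ f₂) 0) (rename Sum.inl f₁) D i) = 0 := by
  have e1 := e (Sum.inl ())
  have e2 := e (Sum.inr ())
  change φ (rename Sum.inl (rename Sum.inl f₁) - C 1 * xs ^ D) = 0 at e1
  change φ (rename Sum.inl (rename Sum.inr f₂) - C (-1) * xs ^ D) = 0 at e2
  rw [map_one, one_mul, map_sub] at e1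
  rw [map_neg, map_one, map_sub, map_mul, map_neg, map_one] at e2
  rintro (_ | i)
  · change φ (xs ^ D - rename Sum.inl (rename Sum.inl f₁)) = 0
    rw [map_sub]
    linear_combination (-1 : Q) * e1
  · change φ (rename Sum.inl (rename Sum.inl f₁ + rename Sum.inr f₂ - C 0)) = 0
    rw [map_zero, sub_zero, map_add, map_add]
    linear_combination e1 + e2

lemma lb3 (hD : D ≠ 0) (φ : MvPolynomial ((σ₁ ⊕ σ₂) ⊕ Unit) k →ₐ[k] Q)
    (e : ∀ i, φ (cG (lev (sumf f₁ f₂) 0) (rename Sum.inl f₁) D i) = 0)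
    (h : IsUnit (φ (rename Sum.inl (1 * rename Sum.inl f₁)))) :
    IsUnit (φ (rename Sum.inl 1 * xs)) := by
  have e1 := e none
  change φ (xs ^ D - rename Sum.inl (rename Sum.inl f₁)) = 0 at e1
  rw [map_sub, map_pow, sub_eq_zero] at e1
  rw [one_mul, ← e1] at h
  rw [map_one, one_mul]
  exact (isUnit_pow_iff hD).mp h

lemma lb4 (φ : MvPolynomial ((σ₁ ⊕ σ₂) ⊕ Unit) k →ₐ[k] Q)
    (e : ∀ i, φ (rA f₁ f₂ D i) = 0) (h : IsUnit (φ xs)) :
    IsUnit (φ (rename Sum.inl (1 * rename Sum.inl f₁))) := by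
  have e1 := e (Sum.inl ())
  change φ (rename Sum.inl (rename Sum.inl f₁) - C 1 * xs ^ D) = 0 at e1
  rw [map_one, one_mul, map_sub, sub_eq_zero] at e1
  rw [one_mul, e1, map_pow]
  exact h.pow D

/-- the relation `f = c v ^ D` -/
noncomputable def rB (f : MvPolynomial σ k) (c : k) (D : ℕ) (_ : Unit) :
    MvPolynomial (σ ⊕ Unit) k := rename Sum.inl f - C c * xs ^ D

lemma sumf_una : sumf f (una (-c) D) = rename Sum.inl f - C c * xs ^ D := by
  rw [sumf, una, map_mul, map_pow, rename_C, rename_X, map_neg, xs]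
  ring

lemma lc1 (hD : D ≠ 0) (φ : MvPolynomial (σ ⊕ Unit) k →ₐ[k] Q)
    (e : ∀ i, φ (adj (lev (sumf f (una (-c) D)) 0) xs i) = 0) :
    ∀ i, φ (adj (rl (lev f 0) Unit) xs i) = 0 := by
  have e1 := e none
  have e2 := e (some ())
  change φ xs = 0 at e1
  change φ (sumf f (una (-c) D) - C 0) = 0 at e2
  rw [map_zero, sub_zero, sumf_una, map_sub, map_mul, map_pow, e1, zero_pow hD, mul_zero,
    sub_zero] at e2
  rintro (_ | i)
  · exact e1
  · change φ (rename Sum.inl (f - C 0)) = 0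
    rw [map_zero, sub_zero]
    exact e2

lemma lc2 (hD : D ≠ 0) (φ : MvPolynomial (σ ⊕ Unit) k →ₐ[k] Q)
    (e : ∀ i, φ (adj (rl (lev f 0) Unit) xs i) = 0) :
    ∀ i, φ (adj (lev (sumf f (una (-c) D)) 0) xs i) = 0 := by
  have e1 := e none
  have e2 := e (some ())
  change φ xs = 0 at e1
  change φ (rename Sum.inl (f - C 0)) = 0 at e2
  rw [map_zero, sub_zero] at e2
  rintro (_ | i)
  · exact e1
  · change φ (sumf f (una (-c) D) - C 0) = 0
    rw [map_zero, sub_zero, sumf_una, map_sub, map_mul, map_pow, e1, zero_pow hD, mul_zero,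
      sub_zero, e2]

lemma lc3 (φ : MvPolynomial (σ ⊕ Unit) k →ₐ[k] Q) (e : ∀ i, φ (rB f c D i) = 0) :
    ∀ i, φ (lev (sumf f (una (-c) D)) 0 i) = 0 := by
  intro i
  change φ (sumf f (una (-c) D) - C 0) = 0
  rw [map_zero, sub_zero, sumf_una]
  exact e ()

lemma lc4 (φ : MvPolynomial (σ ⊕ Unit) k →ₐ[k] Q)
    (e : ∀ i, φ (lev (sumf f (una (-c) D)) 0 i) = 0) : ∀ i, φ (rB f c D i) = 0 := by
  intro i
  have e1 := e ()
  change φ (sumf f (una (-c) D) - C 0) = 0 at e1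
  rw [map_zero, sub_zero, sumf_una] at e1
  exact e1

end relations

variable [Finite σ] [Finite σ₁] [Finite σ₂]

lemma ft_tensor (A B : Type) [CommRing A] [CommRing B] [Algebra k A] [Algebra k B]
    [Algebra.FiniteType k A] [Algebra.FiniteType k B] : Algebra.FiniteType k (A ⊗[k] B) :=
  Algebra.FiniteType.trans (S := A) inferInstance inferInstance

/-- The product of two pieces. -/
lemma p_prod (hP : BndT P) {κ₁ κ₂ : Type} {G₁ : κ₁ → MvPolynomial σ₁ k} {w₁ : MvPolynomial σ₁ k}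
    {G₂ : κ₂ → MvPolynomial σ₂ k} {w₂ : MvPolynomial σ₂ k} (h₁ : P (aff k (Pc G₁ w₁)))
    (h₂ : P (aff k (Pc G₂ w₂))) : P (aff k (Pc (pG G₁ G₂) (pw w₁ w₂))) := by
  have := ft_tensor (k := k) (Pc G₁ w₁) (Pc G₂ w₂)
  exact iso_alg hP.toUni (prodE G₁ w₁ G₂ w₂) (hP.prod _ _ h₁ h₂)

/-- The fibre at `0` of a sum. -/
lemma level_zero (hP : BndT P) {D : ℕ} (hD : D ≠ 0) {w₁ : σ₁ → ℤ} {w₂ : σ₂ → ℤ}
    {f₁ : MvPolynomial σ₁ k} {f₂ : MvPolynomial σ₂ k} (h₁ : IsWeightedHomogeneous w₁ f₁ (D : ℤ))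
    (h₂ : IsWeightedHomogeneous w₂ f₂ (D : ℤ)) (a₀ : P (aff k (Pc (lev f₁ 0) 1)))
    (b₀ : P (aff k (Pc (lev f₂ 0) 1))) (a₁ : P (aff k (Pc (lev f₁ 1) 1)))
    (b₁ : P (aff k (Pc (lev f₂ (-1)) 1))) : P (aff k (Pc (lev (sumf f₁ f₂) 0) 1)) := by
  have hpw : pw (1 : MvPolynomial σ₁ k) (1 : MvPolynomial σ₂ k) = 1 := by
    rw [pw, map_one, map_one, mul_one]
  have ha := p_prod hP a₀ b₀
  have hb := p_prod hP a₁ b₁
  rw [hpw] at ha hb
  refine pc_total hP.toBnd (e := rename Sum.inl f₁) ?_ ?_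
  · refine iso_alg hP.toUni (pcSame (la1 _ (pc_rel _ _)) ?_ (la2 _ (pc_rel _ _)) ?_) ha
    · exact pc_unit _ _
    · exact pc_unit _ _
  · apply p_cover hP (rename Sum.inl f₁) hD
    have hg := p_gm hP.toBnd hb
    let W : MvPolynomial ((σ₁ ⊕ σ₂) ⊕ Unit) k := rename Sum.inl 1 * xs
    have hx : IsUnit (pc (rA f₁ f₂ D) W xs) := pc_unit_right _ _ _
    have hx' : IsUnit (pc (rl (pG (lev f₁ 1) (lev f₂ (-1))) Unit) W xs) := pc_unit_right _ _ _
    have hr : ∀ i, Tr (Sum.elim w₁ w₂) (rA f₁ f₂ D i)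
        (rl (pG (lev f₁ 1) (lev f₂ (-1))) Unit i) := by
      rintro (i | i)
      · have h := Tr.level (wh_rename Sum.inl (Sum.elim w₁ w₂) h₁) 1
        have e : rename Sum.inl (rename Sum.inl f₁ - C 1) =
            rl (pG (lev f₁ 1) (lev f₂ (-1))) Unit (Sum.inl i) := by
          change _ = rename Sum.inl (rename Sum.inl (f₁ - C 1))
          rw [map_sub (rename Sum.inl : MvPolynomial σ₁ k →ₐ[k] _), rename_C]
        rw [e] at h
        exact h
      · have h := Tr.level (wh_rename Sum.inr (Sum.elim w₁ w₂) h₂) (-1)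
        have e : rename Sum.inl (rename Sum.inr f₂ - C (-1)) =
            rl (pG (lev f₁ 1) (lev f₂ (-1))) Unit (Sum.inr i) := by
          change _ = rename Sum.inl (rename Sum.inr (f₂ - C (-1)))
          rw [map_sub (rename Sum.inr : MvPolynomial σ₂ k →ₐ[k] _), rename_C]
        rw [e] at h
        exact h
    have hW : Tr (Sum.elim w₁ w₂) W W := by
      have h : Tr (Sum.elim w₁ w₂) (rename Sum.inl (1 : MvPolynomial (σ₁ ⊕ σ₂) k))
          (rename Sum.inl (1 : MvPolynomial (σ₁ ⊕ σ₂) k)) :=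
        Tr.wh (d := 0) (isWeightedHomogeneous_one _ _)
      exact h.mul Tr.xs
    have hg2 : P (aff k (Pc (rA f₁ f₂ D) W)) :=
      iso_alg hP.toUni (scaleE hr hW hx hx').symm hg
    exact iso_alg hP.toUni (pcSame (lb1 _ (pc_rel _ _)) (lb3 hD _ (pc_rel _ _) (pc_unit _ _))
      (lb2 _ (pc_rel _ _)) (lb4 _ (pc_rel _ _) hx)) hg2

/-- The fibres of `f`, from the fibre at `0` of `f - c X ^ D`. -/
lemma level_of_sum (hP : BndT P) {D : ℕ} (hD : D ≠ 0) {w : σ → ℤ} {f : MvPolynomial σ k}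
    (hf : IsWeightedHomogeneous w f (D : ℤ)) (c : k)
    (hs : P (aff k (Pc (lev (sumf f (una (-c) D)) 0) 1))) (h0 : P (aff k (Pc (lev f 0) 1))) :
    P (aff k (Pc (lev f c) 1)) := by
  apply pc_torus _ _ hP.toBnd
  let W : MvPolynomial (σ ⊕ Unit) k := rename Sum.inl 1 * xs
  have hx : IsUnit (pc (rB f c D) W xs) := pc_unit_right _ _ _
  have hx' : IsUnit (pc (rl (lev f c) Unit) W xs) := pc_unit_right _ _ _
  have hr : ∀ i, Tr w (rB f c D i) (rl (lev f c) Unit i) := fun i => Tr.level hf c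
  have hW : Tr w W W := by
    have h : Tr w (rename Sum.inl (1 : MvPolynomial σ k)) (rename Sum.inl (1 : MvPolynomial σ k)) :=
      Tr.wh (d := 0) (isWeightedHomogeneous_one _ _)
    exact h.mul Tr.xs
  refine iso_alg hP.toUni (scaleE hr hW hx hx') ?_
  have h2 : P (aff k (Pc (adj (lev (sumf f (una (-c) D)) 0) xs) (rename Sum.inl 1))) :=
    iso_alg hP.toUni (pcSame (lc1 hD _ (pc_rel _ _)) (pc_unit _ _) (lc2 hD _ (pc_rel _ _))
      (pc_unit _ _)) (iso_alg hP.toUni (lineE (lev f 0) 1) h0)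
  have h3 : P (aff k (Pc (lev (sumf f (una (-c) D)) 0) (rename Sum.inl 1))) := by
    rw [map_one]
    exact hs
  exact iso_alg hP.toUni (pcSame (lc3 _ (pc_rel _ _)) (pc_unit _ _) (lc4 _ (pc_rel _ _))
    (pc_unit _ _)) (pc_open hP.toBnd h3 h2)

end level

end Pool.Agent.U672.ST
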