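import Pool.Agent.U672.ST.WH
import Pool.Agent.Z125.UN.Sym

/-!
# Products of pieces, cyclic covers of pieces, and changes of coordinates by a unit
-/

set_option autoImplicit false

open CategoryTheory AlgebraicGeometry MvPolynomial Pool.Agent.Y116.UV Pool.Agent.Z125.UN
open scoped TensorProduct

namespace Pool.Agent.U672.ST

section prod

variable {k : Type} [Field k] {σ₁ κ₁ σ₂ κ₂ : Type} (G₁ : κ₁ → MvPolynomial σ₁ k)
  (w₁ : MvPolynomial σ₁ k) (G₂ : κ₂ → MvPolynomial σ₂ k) (w₂ : MvPolynomial σ₂ k)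

/-- the relations of both factors -/
noncomputable def pG : κ₁ ⊕ κ₂ → MvPolynomial (σ₁ ⊕ σ₂) k :=
  Sum.elim (fun i => rename Sum.inl (G₁ i)) fun i => rename Sum.inr (G₂ i)

/-- the product of the functions -/
noncomputable def pw : MvPolynomial (σ₁ ⊕ σ₂) k := rename Sum.inl w₁ * rename Sum.inr w₂

/-- the first factor -/
noncomputable def pL : Pc G₁ w₁ →ₐ[k] Pc (pG G₁ G₂) (pw w₁ w₂) :=
  pcLift _ _ (fun s => pv _ _ (Sum.inl s))
    (by
      intro i
      have h := pc_rel (pG G₁ G₂) (pw w₁ w₂) (Sum.inl i)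
      rw [← pc_aeval] at h
      change aeval _ (rename Sum.inl (G₁ i)) = 0 at h
      rw [aeval_rename] at h
      exact h)
    (by
      have h := pc_unit_left (pG G₁ G₂) (rename Sum.inl w₁) (rename Sum.inr w₂)
      rw [← pc_aeval, aeval_rename] at h
      exact h)

/-- the second factor -/
noncomputable def pR : Pc G₂ w₂ →ₐ[k] Pc (pG G₁ G₂) (pw w₁ w₂) :=
  pcLift _ _ (fun s => pv _ _ (Sum.inr s))
    (by
      intro i
      have h := pc_rel (pG G₁ G₂) (pw w₁ w₂) (Sum.inr i)
      rw [← pc_aeval] at h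
      change aeval _ (rename Sum.inr (G₂ i)) = 0 at h
      rw [aeval_rename] at h
      exact h)
    (by
      have h := pc_unit_right (pG G₁ G₂) (rename Sum.inl w₁) (rename Sum.inr w₂)
      rw [← pc_aeval, aeval_rename] at h
      exact h)

/-- to the tensor product -/
noncomputable def pT : Pc (pG G₁ G₂) (pw w₁ w₂) →ₐ[k] Pc G₁ w₁ ⊗[k] Pc G₂ w₂ :=
  pcLift _ _ (Sum.elim (fun s => Algebra.TensorProduct.includeLeft (R := k) (S := k) (pv G₁ w₁ s))
      fun s => Algebra.TensorProduct.includeRight (R := k) (pv G₂ w₂ s))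
    (by
      rintro (i | i)
      · rw [pG, Sum.elim_inl, aeval_rename, Sum.elim_comp_inl, aeval_pv_comp, pc_rel, map_zero]
      · rw [pG, Sum.elim_inr, aeval_rename, Sum.elim_comp_inr, aeval_pv_comp, pc_rel, map_zero])
    (by
      rw [pw, map_mul, aeval_rename, aeval_rename, Sum.elim_comp_inl, Sum.elim_comp_inr,
        aeval_pv_comp, aeval_pv_comp]
      exact ((pc_unit _ _).map _).mul ((pc_unit _ _).map _))

lemma pL_pv (s : σ₁) : pL G₁ w₁ G₂ w₂ (pv G₁ w₁ s) = pv _ _ (Sum.inl s) := pcLift_pv _ _ _ _ _ _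

lemma pR_pv (s : σ₂) : pR G₁ w₁ G₂ w₂ (pv G₂ w₂ s) = pv _ _ (Sum.inr s) := pcLift_pv _ _ _ _ _ _

lemma pT_inl (s : σ₁) : pT G₁ w₁ G₂ w₂ (pv _ _ (Sum.inl s)) = pv G₁ w₁ s ⊗ₜ 1 :=
  pcLift_pv _ _ _ _ _ _

lemma pT_inr (s : σ₂) : pT G₁ w₁ G₂ w₂ (pv _ _ (Sum.inr s)) = 1 ⊗ₜ pv G₂ w₂ s :=
  pcLift_pv _ _ _ _ _ _

/-- The product of two pieces. -/
noncomputable def prodE : (Pc G₁ w₁ ⊗[k] Pc G₂ w₂) ≃ₐ[k] Pc (pG G₁ G₂) (pw w₁ w₂) :=
  AlgEquiv.ofAlgHom (Algebra.TensorProduct.productMap (pL G₁ w₁ G₂ w₂) (pR G₁ w₁ G₂ w₂))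
    (pT G₁ w₁ G₂ w₂)
    (by
      apply pc_ext
      rintro (s | s)
      · rw [AlgHom.comp_apply, pT_inl, Algebra.TensorProduct.productMap_apply_tmul, map_one,
          mul_one, pL_pv]
        rfl
      · rw [AlgHom.comp_apply, pT_inr, Algebra.TensorProduct.productMap_apply_tmul, map_one,
          one_mul, pR_pv]
        rfl)
    (by
      apply Algebra.TensorProduct.ext
      · apply pc_ext
        intro s
        change pT G₁ w₁ G₂ w₂ (Algebra.TensorProduct.productMap _ _ (pv G₁ w₁ s ⊗ₜ 1)) = _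
        rw [Algebra.TensorProduct.productMap_apply_tmul, map_one, mul_one, pL_pv, pT_inl]
        rfl
      · apply pc_ext
        intro s
        change pT G₁ w₁ G₂ w₂ (Algebra.TensorProduct.productMap _ _ (1 ⊗ₜ pv G₂ w₂ s)) = _
        rw [Algebra.TensorProduct.productMap_apply_tmul, map_one, one_mul, pR_pv, pT_inr]
        rfl)

end prod

section cov

variable {R : Type} [CommRing R] {σ κ : Type} (G : κ → MvPolynomial σ R) (w u : MvPolynomial σ R)
  (D : ℕ)

/-- The relations of the cyclic cover `v ^ D = u`. -/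
noncomputable def cG : Option κ → MvPolynomial (σ ⊕ Unit) R :=
  adj (rl G Unit) (xs ^ D - rename Sum.inl u)

/-- the polynomial of the cover -/
noncomputable def cp : Polynomial (Pc G w) := Polynomial.X ^ D - Polynomial.C (pc G w u)

/-- the inclusion of the base -/
noncomputable def cB : Pc G w →ₐ[R] Pc (cG G u D) (rename Sum.inl w) :=
  pcLift _ _ (fun s => pv _ _ (Sum.inl s))
    (by
      intro i
      have h := pc_rel (cG G u D) (rename Sum.inl w) (some i)
      rw [← pc_aeval] at h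
      change aeval _ (rename Sum.inl (G i)) = 0 at h
      rw [aeval_rename] at h
      exact h)
    (by
      have h := pc_unit (cG G u D) (rename Sum.inl w)
      rw [← pc_aeval, aeval_rename] at h
      exact h)

lemma cB_pc (p : MvPolynomial σ R) : cB G w u D (pc G w p) = pc _ _ (rename Sum.inl p) := by
  rw [cB, pcLift_pc, ← pc_aeval, aeval_rename]
  rfl

lemma cB_root : (cp G w u D).eval₂
    (cB G w u D : Pc G w →+* Pc (cG G u D) (rename Sum.inl w)) (pv _ _ (Sum.inr ())) = 0 := by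
  rw [cp, Polynomial.eval₂_sub, Polynomial.eval₂_pow, Polynomial.eval₂_X, Polynomial.eval₂_C]
  have h := pc_rel (cG G u D) (rename Sum.inl w) none
  change pc _ _ (xs ^ D - rename Sum.inl u) = 0 at h
  rw [map_sub, map_pow] at h
  change _ - cB G w u D (pc G w u) = 0
  rw [cB_pc]
  exact h

/-- from the cover -/
noncomputable def cF : AdjoinRoot (cp G w u D) →ₐ[R] Pc (cG G u D) (rename Sum.inl w) :=
  AdjoinRoot.liftAlgHom (cp G w u D) (cB G w u D) (pv _ _ (Sum.inr ())) (cB_root G w u D)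

lemma ar_comp (p : MvPolynomial σ R) :
    aeval (fun s => algebraMap (Pc G w) (AdjoinRoot (cp G w u D)) (pv G w s)) p =
      algebraMap (Pc G w) (AdjoinRoot (cp G w u D)) (pc G w p) :=
  aeval_pv_comp G w (IsScalarTower.toAlgHom R (Pc G w) (AdjoinRoot (cp G w u D))) p

/-- to the cover -/
noncomputable def cH : Pc (cG G u D) (rename Sum.inl w) →ₐ[R] AdjoinRoot (cp G w u D) :=
  pcLift _ _ (Sum.elim (fun s => algebraMap (Pc G w) _ (pv G w s)) fun _ => AdjoinRoot.root _)
    (by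
      rintro (_ | i)
      · change aeval _ (xs ^ D - rename Sum.inl u) = 0
        rw [map_sub, map_pow, aeval_rename, Sum.elim_comp_inl, xs, aeval_X, Sum.elim_inr, ar_comp]
        have h := AdjoinRoot.eval₂_root (cp G w u D)
        rw [cp, Polynomial.eval₂_sub, Polynomial.eval₂_pow, Polynomial.eval₂_X,
          Polynomial.eval₂_C] at h
        exact h
      · change aeval _ (rename Sum.inl (G i)) = 0
        rw [aeval_rename, Sum.elim_comp_inl, ar_comp, pc_rel, map_zero])
    (by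
      rw [aeval_rename, Sum.elim_comp_inl, ar_comp]
      exact (pc_unit G w).map _)

lemma cB_pv (s : σ) : cB G w u D (pv G w s) = pv _ _ (Sum.inl s) := pcLift_pv _ _ _ _ _ _

lemma cH_inl (s : σ) : cH G w u D (pv _ _ (Sum.inl s)) = AdjoinRoot.of _ (pv G w s) :=
  pcLift_pv _ _ _ _ _ _

lemma cH_inr (s : Unit) : cH G w u D (pv _ _ (Sum.inr s)) = AdjoinRoot.root _ :=
  pcLift_pv _ _ _ _ _ _

lemma cF_of (a : Pc G w) : cF G w u D (AdjoinRoot.of _ a) = cB G w u D a :=
  AdjoinRoot.liftAlgHom_of _ _ _ _ _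

lemma cF_root : cF G w u D (AdjoinRoot.root _) = pv _ _ (Sum.inr ()) :=
  AdjoinRoot.liftAlgHom_root _ _ _ _

/-- The cyclic cover `v ^ D = u`. -/
noncomputable def covE : AdjoinRoot (cp G w u D) ≃ₐ[R] Pc (cG G u D) (rename Sum.inl w) :=
  AlgEquiv.ofAlgHom (cF G w u D) (cH G w u D)
    (by
      apply pc_ext
      rintro (s | s)
      · rw [AlgHom.comp_apply, cH_inl, cF_of, cB_pv]
        rfl
      · rw [AlgHom.comp_apply, cH_inr, cF_root]
        rfl)
    (by
      apply AdjoinRoot.algHom_ext'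
      · apply pc_ext
        intro s
        change cH G w u D (cF G w u D (AdjoinRoot.of _ (pv G w s))) = _
        rw [cF_of, cB_pv, cH_inl]
        rfl
      · change cH G w u D (cF G w u D (AdjoinRoot.root _)) = _
        rw [cF_root, cH_inr]
        rfl)

end cov

end Pool.Agent.U672.ST
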