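import Pool.Agent.U672.ST.Main

/-!
# Motives with products and transfers
-/

set_option autoImplicit false

open CategoryTheory MonoidalCategory AlgebraicGeometry Pool.Agent.TH137.DG Pool.Agent.Y116.UV
  Pool.Agent.Z125.UN
open scoped TensorProduct

namespace Pool.Agent.U672.ST

universe v u

variable {k : Type} [Field k] {C : Type u} [Category.{v} C] [MonoidalCategory C]
  [SymmetricCategory C] [Preadditive C] [Linear ℚ C] [Limits.HasZeroObject C] [HasShift C ℤ]
  [∀ n : ℤ, (shiftFunctor C n).Additive] [Pretriangulated C]

/-- The properties `IsMotives` and three more standard properties of the motives with compact support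
with rational coefficients over a perfect field:

* `tensor`: tensor products of Schur-finite objects are Schur-finite (Deligne);
* `kuenneth`: `Mc (X × Y) = Mc X ⊗ Mc Y` (Voevodsky, Kelly);
* `transfer`: if `B` is a free `A`-module of finite rank `d + 1`, then `Mc (Spec A)` is a direct summand
  of `Mc (Spec B)`, since the composition of the pull-back and the push-forward for the finite flat
  morphism `Spec B → Spec A` is the multiplication by `d + 1`. -/
structure TensorMotives (D : Motives k C) : Prop extends IsMotives D where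
  tensor : ∀ X Y : C, IsSchurFinite X → IsSchurFinite Y → IsSchurFinite (X ⊗ Y)
  kuenneth : ∀ (A B : Type) [CommRing A] [CommRing B] [Algebra k A] [Algebra k B]
    [Algebra.FiniteType k A] [Algebra.FiniteType k B],
    Nonempty (D.Mc (aff k (TensorProduct k A B)) ≅ D.Mc (aff k A) ⊗ D.Mc (aff k B))
  transfer : ∀ (A B : Type) [CommRing A] [CommRing B] [Algebra k A] [Algebra k B] [Algebra A B]
    [IsScalarTower k A B] [Algebra.FiniteType k A] (d : ℕ),
    Nonempty (Module.Basis (Fin (d + 1)) A B) →
      ∃ (s : D.Mc (aff k A) ⟶ D.Mc (aff k B)) (r : D.Mc (aff k B) ⟶ D.Mc (aff k A)), s ≫ r = 𝟙 _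

variable {D : Motives k C}

theorem bndt_sf (hD : TensorMotives D) : BndT fun X : Sch k => IsSchurFinite (D.Mc X) where
  toBnd := bnd_sf hD.toIsMotives
  prod A B _ _ _ _ _ _ hA hB := (sf_iso (hD.kuenneth A B)).mpr (hD.tensor _ _ hA hB)
  transfer A B _ _ _ _ _ _ _ d b h := by
    obtain ⟨s, r, hs⟩ := hD.transfer A B d b
    exact sf_retract s r hs h

/-- schemes of dimension at most `d` -/
lemma sf_dim [PerfectField k] (hD : TensorMotives D) {d : ℕ}
    (h : ∀ X : Sch k, FT True X → Smooth X.hom → topologicalKrullDim X.left ≤ d →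
      IsSchurFinite (D.M X)) (A : Type) [CommRing A] [Algebra k A] [Algebra.FiniteType k A]
    (hA : ringKrullDim A ≤ d) : IsSchurFinite (D.Mc (aff k A)) :=
  dim_smooth (bnd_sf hD.toIsMotives) d (fun X hX hs hn => (hD.duality X hX hs).mp (h X hX hs hn)) _
    (ft_aff True) (by rw [topDim_aff]; exact hA)

/-- curves -/
lemma sf_curve [PerfectField k] (hD : TensorMotives D) (X : Sch k) (hX : FT True X)
    (hs : Smooth X.hom) (hn : topologicalKrullDim X.left ≤ (1 : ℕ)) : IsSchurFinite (D.M X) :=
  hD.curves X hX hs (by exact_mod_cast hn)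

end Pool.Agent.U672.ST
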