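import Pool.Agent.U672.ST.Sum

/-!
# Sums of finitely many quasi-homogeneous polynomials; functions on affine schemes
-/

set_option autoImplicit false

open CategoryTheory AlgebraicGeometry MvPolynomial Pool.Agent.Y116.UV Pool.Agent.Z125.UN
open scoped TensorProduct

namespace Pool.Agent.U672.ST

variable {k : Type} [Field k] {P : Sch k → Prop} {σ σ₁ σ₂ τ κ : Type}

/-- `f` is quasi-homogeneous: weighted homogeneous of a degree `d ≠ 0` for some integral weights (which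
may be zero or negative). -/
def QuasiHom (f : MvPolynomial σ k) : Prop :=
  ∃ (w : σ → ℤ) (d : ℤ), d ≠ 0 ∧ IsWeightedHomogeneous w f d

lemma wh_scale {w : σ → ℤ} {f : MvPolynomial σ k} {d : ℤ} (q : ℤ)
    (hf : IsWeightedHomogeneous w f d) : IsWeightedHomogeneous (fun s => q * w s) f (q * d) := by
  intro m hm
  rw [← hf hm, Finsupp.weight_apply, Finsupp.weight_apply, Finsupp.sum, Finsupp.sum,
    Finset.mul_sum]
  apply Finset.sum_congr rfl
  intro s _
  rw [nsmul_eq_mul, nsmul_eq_mul]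
  ring

lemma QuasiHom.nat {f : MvPolynomial σ k} (h : QuasiHom f) :
    ∃ (w : σ → ℤ) (D : ℕ), D ≠ 0 ∧ IsWeightedHomogeneous w f (D : ℤ) := by
  obtain ⟨w, d, hd, hf⟩ := h
  refine ⟨fun s => d.sign * w s, d.natAbs, Int.natAbs_ne_zero.mpr hd, ?_⟩
  have h1 := wh_scale d.sign hf
  rwa [Int.sign_mul_self_eq_natAbs] at h1

lemma QuasiHom.common {f₁ : MvPolynomial σ₁ k} {f₂ : MvPolynomial σ₂ k} (h₁ : QuasiHom f₁)
    (h₂ : QuasiHom f₂) : ∃ (w₁ : σ₁ → ℤ) (w₂ : σ₂ → ℤ) (D : ℕ), D ≠ 0 ∧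
      IsWeightedHomogeneous w₁ f₁ (D : ℤ) ∧ IsWeightedHomogeneous w₂ f₂ (D : ℤ) := by
  obtain ⟨w₁, D₁, hD₁, h₁⟩ := h₁.nat
  obtain ⟨w₂, D₂, hD₂, h₂⟩ := h₂.nat
  refine ⟨fun s => D₂ * w₁ s, fun s => D₁ * w₂ s, D₂ * D₁, mul_ne_zero hD₂ hD₁, ?_, ?_⟩
  · have h := wh_scale D₂ h₁
    rwa [← Nat.cast_mul] at h
  · have h := wh_scale D₁ h₂
    rwa [← Nat.cast_mul, mul_comm D₁ D₂] at h

lemma QuasiHom.rename_equiv {f : MvPolynomial σ k} (e : σ ≃ τ) (h : QuasiHom f) :
    QuasiHom (rename e f) := by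
  obtain ⟨w, d, hd, hf⟩ := h
  refine ⟨w ∘ e.symm, d, hd, wh_rename e _ ?_⟩
  have : (w ∘ e.symm) ∘ e = w := by
    funext s
    exact congrArg w (e.symm_apply_apply s)
  rw [this]
  exact hf

lemma good_rename (hP : BndT P) [Finite σ] (e : σ ≃ τ) {f : MvPolynomial σ k} (h : Good P f) :
    Good P (rename e f) := fun c => lev_rename hP e (h c)

/-- All fibres, from the fibre at `1`. -/
theorem good_of_milnor (hP : BndT P) (h2 : Plane P) [Finite σ] {f : MvPolynomial σ k}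
    (hf : QuasiHom f) (h : P (aff k (Pc (lev f 1) 1))) : Good P f := by
  obtain ⟨w, D, hD, hf⟩ := hf.nat
  exact good_of_one hP h2 hD hf h

/-- The sum of two quasi-homogeneous polynomials in separate variables. -/
theorem quasi_sum (hP : BndT P) (h2 : Plane P) [Finite σ₁] [Finite σ₂] {f₁ : MvPolynomial σ₁ k}
    {f₂ : MvPolynomial σ₂ k} (h₁ : QuasiHom f₁) (h₂ : QuasiHom f₂) (g₁ : Good P f₁)
    (g₂ : Good P f₂) : QuasiHom (sumf f₁ f₂) ∧ Good P (sumf f₁ f₂) := by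
  obtain ⟨w₁, w₂, D, hD, h₁, h₂⟩ := h₁.common h₂
  exact ⟨⟨_, D, by exact_mod_cast hD, wh_sumf h₁ h₂⟩, good_sum hP h2 hD h₁ h₂ g₁ g₂⟩

/-- the sum of polynomials in separate variables -/
noncomputable def tot {n : ℕ} {σ : Fin n → Type} (f : ∀ j, MvPolynomial (σ j) k) :
    MvPolynomial (Σ j, σ j) k := ∑ j, rename (Sigma.mk j) (f j)

/-- the variables of the first polynomial and the others -/
def sigE {n : ℕ} (σ : Fin (n + 1) → Type) : (Σ j, σ j) ≃ σ 0 ⊕ (Σ j : Fin n, σ j.succ) where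
  toFun p := Fin.cases (motive := fun j => σ j → σ 0 ⊕ (Σ j : Fin n, σ j.succ)) Sum.inl
    (fun j x => Sum.inr ⟨j, x⟩) p.1 p.2
  invFun := Sum.elim (fun x => ⟨0, x⟩) fun p => ⟨p.1.succ, p.2⟩
  left_inv := by
    rintro ⟨j, x⟩
    induction j using Fin.cases with
    | zero => rfl
    | succ j => rfl
  right_inv := by
    rintro (x | ⟨j, x⟩)
    · rfl
    · rfl

lemma tot_succ {n : ℕ} {σ : Fin (n + 1) → Type} (f : ∀ j, MvPolynomial (σ j) k) :
    tot f = rename (sigE σ).symm (sumf (f 0) (tot fun j : Fin n => f j.succ)) := by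
  rw [tot, Fin.sum_univ_succ, sumf, map_add, tot, map_sum, map_sum, rename_rename]
  congr 1
  apply Finset.sum_congr rfl
  intro j _
  rw [rename_rename, rename_rename]
  rfl

/-- The fibres of a sum of quasi-homogeneous polynomials in separate variables. -/
theorem good_tot (hP : BndT P) (h2 : Plane P) : ∀ (n : ℕ) (σ : Fin n → Type) [∀ j, Finite (σ j)]
    (f : ∀ j, MvPolynomial (σ j) k), (∀ j, QuasiHom (f j)) → (∀ j, Good P (f j)) →
      QuasiHom (tot f) ∧ Good P (tot f)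
  | 0, σ, _, f, _, _ => by
    constructor
    · refine ⟨0, 1, one_ne_zero, ?_⟩
      have h : tot f = 0 := by
        rw [tot, Finset.univ_eq_empty, Finset.sum_empty]
      rw [h]
      exact isWeightedHomogeneous_zero _ _ _
    · have := Fintype.ofIsEmpty (α := Σ j : Fin 0, σ j)
      exact small_good hP h2 (by rw [Fintype.card_eq_zero]; omega) _
  | n + 1, σ, _, f, hq, hg => by
    obtain ⟨h1, h2'⟩ := good_tot hP h2 n (fun j => σ j.succ) (fun j => f j.succ)
      (fun j => hq j.succ) (fun j => hg j.succ)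
    obtain ⟨h3, h4⟩ := quasi_sum hP h2 (hq 0) h1 (hg 0) h2'
    rw [tot_succ]
    exact ⟨h3.rename_equiv _, good_rename hP _ h4⟩

end Pool.Agent.U672.ST
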