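import Pool.Agent.U672.ST.Iso

/-!
# Changes of coordinates by the powers of a unit
-/

set_option autoImplicit false

open CategoryTheory AlgebraicGeometry MvPolynomial Pool.Agent.Y116.UV Pool.Agent.Z125.UN

namespace Pool.Agent.U672.ST

variable {R : Type} [CommRing R] {σ : Type} (w : σ → ℤ)

/-- The polynomial `p` goes to a multiple of `p'` by a power of the unit `v` (the last coordinate) when
the other coordinates are multiplied by the powers `v ^ w`. -/
def Tr (p p' : MvPolynomial (σ ⊕ Unit) R) : Prop :=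
  ∃ d : ℤ, ∀ (S : Type) [CommRing S] [Algebra R S] (v : Sˣ) (x : σ → S),
    aeval (Sum.elim (act w v x) fun _ => (v : S)) p =
      aeval (Sum.elim x fun _ => (v : S)) p' * ((v ^ d : Sˣ) : S)

variable {w}

lemma Tr.mul {p p' q q' : MvPolynomial (σ ⊕ Unit) R} (h : Tr w p p') (h' : Tr w q q') :
    Tr w (p * q) (p' * q') := by
  obtain ⟨d, h⟩ := h
  obtain ⟨d', h'⟩ := h'
  refine ⟨d + d', fun S _ _ v x => ?_⟩
  rw [map_mul, map_mul, h, h', zpow_add, units_coe_mul]
  ring

lemma Tr.xs : Tr w (xs : MvPolynomial (σ ⊕ Unit) R) xs := by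
  refine ⟨0, fun S _ _ v x => ?_⟩
  rw [Pool.Agent.Z125.UN.xs, aeval_X, aeval_X, zpow_zero, Units.val_one, mul_one]
  rfl

/-- weighted homogeneous polynomials -/
lemma Tr.wh {f : MvPolynomial σ R} {d : ℤ} (hf : IsWeightedHomogeneous w f d) :
    Tr w (rename Sum.inl f) (rename Sum.inl f) := by
  refine ⟨d, fun S _ _ v x => ?_⟩
  rw [aeval_rename, aeval_rename, Sum.elim_comp_inl, Sum.elim_comp_inl, aeval_act hf]

/-- `f - c v ^ D` goes to `f - c`, if `f` is weighted homogeneous of degree `D`. -/
lemma Tr.level {f : MvPolynomial σ R} {D : ℕ} (hf : IsWeightedHomogeneous w f (D : ℤ)) (c : R) :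
    Tr w (rename Sum.inl f - C c * Pool.Agent.Z125.UN.xs ^ D) (rename Sum.inl (f - C c)) := by
  refine ⟨D, fun S _ _ v x => ?_⟩
  rw [map_sub, map_mul, map_pow, aeval_rename, aeval_rename, Sum.elim_comp_inl, Sum.elim_comp_inl,
    aeval_act hf, Pool.Agent.Z125.UN.xs, aeval_X, Sum.elim_inr, map_sub, sub_mul, aeval_C, aeval_C,
    zpow_natCast, Units.val_pow_eq_pow_val]

lemma map_act {S S' : Type} [CommRing S] [CommRing S'] (φ : S →+* S') (v : Sˣ) (x : σ → S)
    (s : σ) : φ (act w v x s) = act w (Units.map φ.toMonoidHom v) (fun s => φ (x s)) s := by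
  rw [act, act, map_mul, ← map_zpow]
  rfl

section scale

variable {ι ι' : Type} {r r' : ι → MvPolynomial (σ ⊕ Unit) R} {W W' : MvPolynomial (σ ⊕ Unit) R}
  (hr : ∀ i, Tr w (r i) (r' i)) (hW : Tr w W W') (hx : IsUnit (pc r W xs))
  (hx' : IsUnit (pc r' W' xs))

include hr hW

/-- to the other piece -/
noncomputable def scF : Pc r W →ₐ[R] Pc r' W' :=
  pcLift _ _ (Sum.elim (act w hx'.unit fun s => pv r' W' (Sum.inl s)) fun _ => (hx'.unit : Pc r' W'))
    (by
      intro i
      obtain ⟨d, h⟩ := hr i
      rw [h]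
      have h2 : (Sum.elim (fun s => pv r' W' (Sum.inl s)) fun _ => (hx'.unit : Pc r' W')) =
          pv r' W' := by
        funext s
        rcases s with s | s <;> rfl
      rw [h2, pc_aeval, pc_rel, zero_mul])
    (by
      obtain ⟨d, h⟩ := hW
      rw [h]
      have h2 : (Sum.elim (fun s => pv r' W' (Sum.inl s)) fun _ => (hx'.unit : Pc r' W')) =
          pv r' W' := by
        funext s
        rcases s with s | s <;> rfl
      rw [h2, pc_aeval]
      exact (pc_unit _ _).mul (Units.isUnit _))

lemma scF_inl (s : σ) : scF hr hW hx' (pv _ _ (Sum.inl s)) =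
    act w hx'.unit (fun s => pv r' W' (Sum.inl s)) s := pcLift_pv _ _ _ _ _ _

lemma scF_inr (s : Unit) : scF hr hW hx' (pv _ _ (Sum.inr s)) = pv _ _ (Sum.inr s) :=
  pcLift_pv _ _ _ _ _ _

/-- from the other piece -/
noncomputable def scG : Pc r' W' →ₐ[R] Pc r W :=
  pcLift _ _ (Sum.elim (act w hx.unit⁻¹ fun s => pv r W (Sum.inl s)) fun _ => (hx.unit : Pc r W))
    (by
      intro i
      obtain ⟨d, h⟩ := hr i
      have h1 := h _ hx.unit (act w hx.unit⁻¹ fun s => pv r W (Sum.inl s))
      rw [act_act_inv] at h1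
      have h2 : (Sum.elim (fun s => pv r W (Sum.inl s)) fun _ => (hx.unit : Pc r W)) =
          pv r W := by
        funext s
        rcases s with s | s <;> rfl
      rw [h2, pc_aeval, pc_rel] at h1
      exact (Units.mul_left_eq_zero _).mp h1.symm)
    (by
      obtain ⟨d, h⟩ := hW
      have h1 := h _ hx.unit (act w hx.unit⁻¹ fun s => pv r W (Sum.inl s))
      rw [act_act_inv] at h1
      have h2 : (Sum.elim (fun s => pv r W (Sum.inl s)) fun _ => (hx.unit : Pc r W)) =
          pv r W := by
        funext s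
        rcases s with s | s <;> rfl
      rw [h2, pc_aeval] at h1
      have h3 := pc_unit r W
      rw [h1] at h3
      exact isUnit_of_mul_isUnit_left h3)

lemma scG_inl (s : σ) : scG hr hW hx (pv _ _ (Sum.inl s)) =
    act w hx.unit⁻¹ (fun s => pv r W (Sum.inl s)) s := pcLift_pv _ _ _ _ _ _

lemma scG_inr (s : Unit) : scG hr hW hx (pv _ _ (Sum.inr s)) = pv _ _ (Sum.inr s) :=
  pcLift_pv _ _ _ _ _ _

/-- The change of coordinates. -/
noncomputable def scaleE : Pc r W ≃ₐ[R] Pc r' W' :=
  AlgEquiv.ofAlgHom (scF hr hW hx') (scG hr hW hx)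
    (by
      have hu : Units.map (scF hr hW hx' : Pc r W →+* Pc r' W').toMonoidHom hx.unit = hx'.unit := by
        ext1
        exact scF_inr hr hW hx' ()
      apply pc_ext
      rintro (s | s)
      · rw [AlgHom.comp_apply, scG_inl]
        change (scF hr hW hx' : Pc r W →+* Pc r' W') _ = _
        rw [map_act, map_inv, hu]
        have h2 : (fun s => (scF hr hW hx' : Pc r W →+* Pc r' W') (pv r W (Sum.inl s))) =
            act w hx'.unit (fun s => pv r' W' (Sum.inl s)) := by
          funext s
          exact scF_inl hr hW hx' s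
        rw [h2, act_inv_act]
        rfl
      · rw [AlgHom.comp_apply, scG_inr, scF_inr]
        rfl)
    (by
      have hu : Units.map (scG hr hW hx : Pc r' W' →+* Pc r W).toMonoidHom hx'.unit = hx.unit := by
        ext1
        exact scG_inr hr hW hx ()
      apply pc_ext
      rintro (s | s)
      · rw [AlgHom.comp_apply, scF_inl]
        change (scG hr hW hx : Pc r' W' →+* Pc r W) _ = _
        rw [map_act, hu]
        have h2 : (fun s => (scG hr hW hx : Pc r' W' →+* Pc r W) (pv r' W' (Sum.inl s))) =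
            act w hx.unit⁻¹ (fun s => pv r W (Sum.inl s)) := by
          funext s
          exact scG_inl hr hW hx s
        rw [h2, act_act_inv]
        rfl
      · rw [AlgHom.comp_apply, scF_inr, scG_inr]
        rfl)

end scale

end Pool.Agent.U672.ST
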