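import Pool.Agent.U672.ST.Func

/-!
# The fibres `f = c`, `c ≠ 0`, of a quasi-homogeneous polynomial are smooth
-/

set_option autoImplicit false

open MvPolynomial

namespace Pool.Agent.U672.ST

variable {k : Type} [Field k] {σ : Type}

/-- The fibre `f = c`, `c ≠ 0`, of a weighted homogeneous polynomial `f` of degree `d`, which is not
divisible by the characteristic, is smooth. -/
theorem wh_smooth [Finite σ] {w : σ → ℤ} {f : MvPolynomial σ k} {d : ℤ}
    (hf : IsWeightedHomogeneous w f d) (hd : (d : k) ≠ 0) {c : k} (hc : c ≠ 0) :
    Algebra.Smooth k (MvPolynomial σ k ⧸ Ideal.span {f - C c}) where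
  formallySmooth := by
    apply Algebra.FormallySmooth.of_comp_surjective
    intro B _ _ I hI g
    have hsur : Function.Surjective (Ideal.Quotient.mkₐ k I) := Ideal.Quotient.mkₐ_surjective k I
    choose v hv using fun s => hsur (g (Ideal.Quotient.mk _ (X s)))
    have h1 : (Ideal.Quotient.mkₐ k I).comp (aeval v) =
        g.comp (Ideal.Quotient.mkₐ k (Ideal.span {f - C c})) := by
      apply MvPolynomial.algHom_ext
      intro s
      change Ideal.Quotient.mkₐ k I (aeval v (X s)) = _
      rw [aeval_X]
      exact hv s
    have h2 : Ideal.Quotient.mkₐ k I (aeval v (f - C c)) = 0 := by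
      have h3 := congrArg (fun φ : MvPolynomial σ k →ₐ[k] B ⧸ I => φ (f - C c)) h1
      change Ideal.Quotient.mkₐ k I (aeval v (f - C c)) = g (Ideal.Quotient.mk _ (f - C c)) at h3
      rw [Ideal.Quotient.eq_zero_iff_mem.mpr (Ideal.mem_span_singleton_self _), map_zero] at h3
      exact h3
    have h4 : aeval v (f - C c) ∈ I := Ideal.Quotient.eq_zero_iff_mem.mp h2
    let t : B := aeval v (f - C c)
    have hsq : ∀ a ∈ I, ∀ b ∈ I, a * b = 0 := by
      intro a ha b hb
      have : a * b ∈ I ^ 2 := by
        rw [pow_two]
        exact Ideal.mul_mem_mul ha hb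
      rw [hI] at this
      exact this
    have h8 : aeval v f = algebraMap k B c + t := by
      have h9 : t = aeval v f - algebraMap k B c := by
        change aeval v (f - C c) = _
        rw [map_sub, aeval_C]
      rw [h9]
      ring
    let e : B := -(algebraMap k B ((d : k) * c)⁻¹ * t)
    have he : e ∈ I := I.neg_mem (I.mul_mem_left _ h4)
    have hee : e * e = 0 := hsq e he e he
    -- the unit `1 + e`
    let u : Bˣ := ⟨1 + e, 1 - e, by linear_combination -hee, by linear_combination -hee⟩
    have hpow : ∀ n : ℕ, ((u ^ n : Bˣ) : B) = 1 + (n : B) * e := by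
      intro n
      induction n with
      | zero => simp
      | succ n ih =>
        rw [pow_succ, units_coe_mul, ih]
        change (1 + (n : B) * e) * (1 + e) = _
        push_cast
        linear_combination (n : B) * hee
    have hzpow : ∀ n : ℤ, ((u ^ n : Bˣ) : B) = 1 + (n : B) * e := by
      intro n
      obtain ⟨m, rfl | rfl⟩ := n.eq_nat_or_neg
      · rw [zpow_natCast, hpow]
        push_cast
        rfl
      · have h : ((u ^ (-(m : ℤ)) : Bˣ) : B) * ((u ^ m : Bˣ) : B) = 1 := by
          rw [← units_coe_mul, zpow_neg, zpow_natCast, inv_mul_cancel, Units.val_one]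
        rw [hpow] at h
        push_cast
        have h' : ((u ^ (-(m : ℤ)) : Bˣ) : B) * ((1 + (m : B) * e) * (1 - (m : B) * e)) =
            1 - (m : B) * e := by
          rw [← mul_assoc, h, one_mul]
        have h'' : (1 + (m : B) * e) * (1 - (m : B) * e) = 1 := by
          linear_combination (-(m : B) ^ 2) * hee
        rw [h'', mul_one] at h'
        rw [h']
        ring
    have hfix : aeval (act w u v) f = algebraMap k B c := by
      rw [aeval_act hf, h8, hzpow]
      have h5 : t * e = 0 := hsq t h4 e he
      have h6 : algebraMap k B c * ((d : B) * e) = -t := by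
        have h7 : algebraMap k B c * ((d : B) * algebraMap k B ((d : k) * c)⁻¹) = 1 := by
          have h10 : (d : B) = algebraMap k B (d : k) := by simp
          rw [h10, ← map_mul, ← map_mul]
          have : c * ((d : k) * ((d : k) * c)⁻¹) = 1 := by
            field_simp
          rw [this, map_one]
        change algebraMap k B c * ((d : B) * -(algebraMap k B ((d : k) * c)⁻¹ * t)) = -t
        linear_combination (-t) * h7
      linear_combination h6 + (d : B) * h5
    refine ⟨Ideal.Quotient.liftₐ _ (aeval (act w u v)) ?_, ?_⟩
    · intro a ha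
      have h : Ideal.span {f - C c} ≤ RingHom.ker (aeval (act w u v) : MvPolynomial σ k →ₐ[k] B) := by
        rw [Ideal.span_le, Set.singleton_subset_iff]
        change aeval (act w u v) (f - C c) = 0
        rw [map_sub, hfix, aeval_C, sub_self]
      exact h ha
    · apply Ideal.Quotient.algHom_ext
      apply MvPolynomial.algHom_ext
      intro s
      change Ideal.Quotient.mkₐ k I (aeval (act w u v) (X s)) = g (Ideal.Quotient.mk _ (X s))
      rw [aeval_X, act, hzpow, ← hv s]
      change Ideal.Quotient.mk I _ = Ideal.Quotient.mk I _
      rw [Ideal.Quotient.eq]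
      have : v s * (1 + ((w s : ℤ) : B) * e) - v s = (v s * ((w s : ℤ) : B)) * e := by ring
      rw [this]
      exact I.mul_mem_left _ he
  finitePresentation := by
    have := Fintype.ofFinite σ
    exact Algebra.FinitePresentation.quotient ⟨{f - C c}, by simp⟩

end Pool.Agent.U672.ST
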