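import Pool.Agent.U672.ST.Fib

/-!
# Sums of quasi-homogeneous polynomials in separate variables: the fibres of all sums
-/

set_option autoImplicit false

open CategoryTheory AlgebraicGeometry MvPolynomial Pool.Agent.Y116.UV Pool.Agent.Z125.UN
open scoped TensorProduct

namespace Pool.Agent.U672.ST

variable {k : Type} [Field k] {P : Sch k → Prop} {σ σ₁ σ₂ τ κ : Type}

/-- The property is true for the closed subschemes of the affine plane. -/
def Plane (P : Sch k → Prop) : Prop :=
  ∀ I : Ideal (MvPolynomial (Fin 2) k), P (aff k (MvPolynomial (Fin 2) k ⧸ I))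

/-- locally closed subschemes of the affine plane -/
lemma small (hP : BndT P) (h2 : Plane P) [Fintype τ] (hτ : Fintype.card τ ≤ 2)
    (G : κ → MvPolynomial τ k) (w : MvPolynomial τ k) : P (aff k (Pc G w)) :=
  iso_alg hP.toUni (renE (Fintype.equivFin τ) G w).symm (piece hP.toBnd h2 hτ _ _ _)

lemma small_good (hP : BndT P) (h2 : Plane P) [Fintype τ] (hτ : Fintype.card τ ≤ 2)
    (f : MvPolynomial τ k) : Good P f := fun _ => small hP h2 hτ _ _

lemma isUnit_pc_one (G : κ → MvPolynomial σ k) (w : MvPolynomial σ k) : IsUnit (pc G w 1) := by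
  rw [map_one]
  exact isUnit_one

section milnor

/-- no equations -/
noncomputable def oE (k σ : Type) [Field k] (e : Empty) : MvPolynomial σ k := e.elim

lemma p_space (hP : BndT P) [Finite σ] : P (aff k (Pc (oE k σ) 1)) := by
  have := Fintype.ofFinite σ
  have h1 : P (aff k (MvPolynomial σ k)) :=
    iso_alg hP.toUni (renameEquiv k (Fintype.equivFin σ).symm) (hP.space _)
  have h2 : Ideal.span (Set.range (oE k σ)) = ⊥ := by
    rw [Set.range_eq_empty, Ideal.span_empty]
  have h3 : P (aff k (MvPolynomial σ k ⧸ Ideal.span (Set.range (oE k σ)))) := by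
    rw [h2]
    exact iso_alg hP.toUni (AlgEquiv.quotientBot k _).symm h1
  exact iso_alg hP.toUni (oneE (oE k σ)) h3

variable {f : MvPolynomial σ k} {D : ℕ} {u : σ → ℤ}

section relations

variable {Q : Type} [CommRing Q] [Algebra k Q]

lemma ma1 (φ : MvPolynomial (σ ⊕ Unit) k →ₐ[k] Q) (e : ∀ i, φ (cG (oE k σ) f D i) = 0) :
    ∀ i, φ (rB f 1 D i) = 0 := by
  intro i
  have e1 := e none
  change φ (xs ^ D - rename Sum.inl f) = 0 at e1
  change φ (rename Sum.inl f - C 1 * xs ^ D) = 0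
  rw [map_sub] at e1
  rw [map_one, one_mul, map_sub]
  linear_combination (-1 : Q) * e1

lemma ma2 (φ : MvPolynomial (σ ⊕ Unit) k →ₐ[k] Q) (e : ∀ i, φ (rB f 1 D i) = 0) :
    ∀ i, φ (cG (oE k σ) f D i) = 0 := by
  have e1 := e ()
  change φ (rename Sum.inl f - C 1 * xs ^ D) = 0 at e1
  rw [map_one, one_mul, map_sub] at e1
  rintro (_ | i)
  · change φ (xs ^ D - rename Sum.inl f) = 0
    rw [map_sub]
    linear_combination (-1 : Q) * e1
  · exact i.elim

lemma ma3 (hD : D ≠ 0) (φ : MvPolynomial (σ ⊕ Unit) k →ₐ[k] Q)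
    (e : ∀ i, φ (cG (oE k σ) f D i) = 0) (h : IsUnit (φ (rename Sum.inl (1 * f)))) :
    IsUnit (φ (rename Sum.inl 1 * xs)) := by
  have e1 := e none
  change φ (xs ^ D - rename Sum.inl f) = 0 at e1
  rw [map_sub, map_pow, sub_eq_zero] at e1
  rw [one_mul, ← e1] at h
  rw [map_one, one_mul]
  exact (isUnit_pow_iff hD).mp h

lemma ma4 (φ : MvPolynomial (σ ⊕ Unit) k →ₐ[k] Q) (e : ∀ i, φ (rB f 1 D i) = 0)
    (h : IsUnit (φ (rename Sum.inl 1 * xs))) : IsUnit (φ (rename Sum.inl (1 * f))) := by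
  have e1 := e ()
  change φ (rename Sum.inl f - C 1 * xs ^ D) = 0 at e1
  rw [map_one, one_mul, map_sub, sub_eq_zero] at e1
  rw [map_one, one_mul] at h
  rw [one_mul, e1, map_pow]
  exact h.pow D

end relations

variable [Finite σ]

/-- The fibre at `0`, from the fibre at `1`. -/
lemma level_zero_of_one (hP : BndT P) (hD : D ≠ 0) (hf : IsWeightedHomogeneous u f (D : ℤ))
    (h : P (aff k (Pc (lev f 1) 1))) : P (aff k (Pc (lev f 0) 1)) := by
  have h1 : P (aff k (Pc (oE k σ) (1 * f))) := by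
    apply p_cover hP f hD
    let W : MvPolynomial (σ ⊕ Unit) k := rename Sum.inl 1 * xs
    have hx : IsUnit (pc (rB f 1 D) W xs) := pc_unit_right _ _ _
    have hx' : IsUnit (pc (rl (lev f 1) Unit) W xs) := pc_unit_right _ _ _
    have hr : ∀ i, Tr u (rB f 1 D i) (rl (lev f 1) Unit i) := fun i => Tr.level hf 1
    have hW : Tr u W W := by
      have h : Tr u (rename Sum.inl (1 : MvPolynomial σ k))
          (rename Sum.inl (1 : MvPolynomial σ k)) := Tr.wh (d := 0) (isWeightedHomogeneous_one _ _)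
      exact h.mul Tr.xs
    have hg := iso_alg hP.toUni (scaleE hr hW hx hx').symm (p_gm hP.toBnd h)
    exact iso_alg hP.toUni (pcSame (ma1 _ (pc_rel _ _)) (ma3 hD _ (pc_rel _ _) (pc_unit _ _))
      (ma2 _ (pc_rel _ _)) (ma4 _ (pc_rel _ _) (pc_unit _ _))) hg
  refine iso_alg hP.toUni (pcSame ?_ (pc_unit _ _) ?_ (pc_unit _ _))
    (pc_closed hP.toBnd (p_space hP) h1)
  · rintro (_ | i)
    · have e := pc_rel (lev f 0) 1 ()
      change pc _ _ (f - C 0) = 0 at e
      rw [map_zero, sub_zero] at e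
      exact e
    · exact i.elim
  · intro i
    have e := pc_rel (adj (oE k σ) f) 1 none
    change pc _ _ (f - C 0) = 0
    rw [map_zero, sub_zero]
    exact e

/-- All fibres, from the fibre at `1`. -/
lemma good_of_one (hP : BndT P) (h2 : Plane P) (hD : D ≠ 0)
    (hf : IsWeightedHomogeneous u f (D : ℤ)) (h : P (aff k (Pc (lev f 1) 1))) : Good P f := by
  have h0 := level_zero_of_one hP hD hf h
  intro c
  by_cases hc : c = 0
  · rw [hc]
    exact h0
  have h1 := p_fib hP (G := oE k Empty) (w := 1) (g := C c) hD hf h0 h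
    (small hP h2 (by simp) _ _) (small hP h2 (by simp) _ _)
  have h3 := iso_alg hP.toUni (renE (Equiv.sumEmpty σ Empty) _ _) h1
  have e1 : ∀ p : MvPolynomial σ k, rename (Equiv.sumEmpty σ Empty) (rename Sum.inl p) = p := by
    intro p
    rw [rename_rename]
    have : (Equiv.sumEmpty σ Empty ∘ Sum.inl) = id := rfl
    rw [this, rename_id]
    rfl
  have e2 : rename (Equiv.sumEmpty σ Empty) (rename Sum.inl f - rename Sum.inr (C c)) =
      f - C c := by
    rw [map_sub, e1, rename_C, rename_C]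
  refine iso_alg hP.toUni (pcSame ?_ ?_ ?_ ?_) h3
  · rintro (_ | i)
    · change pc _ _ (rename (Equiv.sumEmpty σ Empty) (rename Sum.inl f - rename Sum.inr (C c))) = 0
      rw [e2]
      exact pc_rel (lev f c) 1 ()
    · exact i.elim
  · rw [map_one, map_one]
    exact pc_unit _ _
  · intro i
    have e := pc_rel (fun i => rename (Equiv.sumEmpty σ Empty) (eG (oE k Empty) (C c) f i))
      (rename (Equiv.sumEmpty σ Empty) (rename Sum.inr (1 : MvPolynomial Empty k))) none
    change pc _ _ (f - C c) = 0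
    rw [← e2]
    exact e
  · exact isUnit_pc_one _ _

end milnor

section sum

lemma sumf_assoc {σ₃ : Type} (f : MvPolynomial σ₁ k) (g : MvPolynomial σ₂ k)
    (h : MvPolynomial σ₃ k) :
    rename (Equiv.sumAssoc σ₁ σ₂ σ₃) (sumf (sumf f g) h) = sumf f (sumf g h) := by
  simp only [sumf, map_add, rename_rename, ← add_assoc]
  rfl

variable [Finite σ₁] [Finite σ₂]

/-- The fibres of a sum of two weighted homogeneous polynomials in separate variables. -/
theorem good_sum (hP : BndT P) (h2 : Plane P) {D : ℕ} (hD : D ≠ 0) {w₁ : σ₁ → ℤ} {w₂ : σ₂ → ℤ}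
    {f₁ : MvPolynomial σ₁ k} {f₂ : MvPolynomial σ₂ k} (h₁ : IsWeightedHomogeneous w₁ f₁ (D : ℤ))
    (h₂ : IsWeightedHomogeneous w₂ f₂ (D : ℤ)) (g₁ : Good P f₁) (g₂ : Good P f₂) :
    Good P (sumf f₁ f₂) := by
  intro c
  have z12 := level_zero hP hD h₁ h₂ (g₁ 0) (g₂ 0) (g₁ 1) (g₂ (-1))
  refine level_of_sum hP hD (wh_sumf h₁ h₂) c ?_ z12
  have u1 : Good P (una (-c) D) := small_good hP h2 (by simp) _
  have z2 := level_zero hP hD h₂ (wh_una (-c) D) (g₂ 0) (u1 0) (g₂ 1) (u1 (-1))
  have u2 : Good P (sumf (una (-c) D) (una (- -1) D)) := small_good hP h2 (by simp) _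
  have z3 := level_zero hP hD h₂ (wh_sumf (wh_una (-c) D) (wh_una (- -1) D)) (g₂ 0) (u2 0) (g₂ 1)
    (u2 (-1))
  have z3' := lev_rename hP (Equiv.sumAssoc σ₂ Unit Unit).symm z3
  rw [← sumf_assoc, rename_rename, Equiv.symm_comp_self, rename_id_apply] at z3'
  have m2 := level_of_sum hP hD (wh_sumf h₂ (wh_una (-c) D)) (-1) z3' z2
  have z := level_zero hP hD h₁ (wh_sumf h₂ (wh_una (-c) D)) (g₁ 0) z2 (g₁ 1) m2
  have z' := lev_rename hP (Equiv.sumAssoc σ₁ σ₂ Unit).symm z
  rw [← sumf_assoc, rename_rename, Equiv.symm_comp_self, rename_id_apply] at z'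
  exact z'

end sum

end Pool.Agent.U672.ST
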