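import Pool.Agent.Z125.UN.MotUni

/-!
# Values of weighted homogeneous polynomials, and isomorphisms of pieces
-/

set_option autoImplicit false

open CategoryTheory AlgebraicGeometry MvPolynomial Pool.Agent.Y116.UV Pool.Agent.Z125.UN

namespace Pool.Agent.U672.ST

section wh

variable {R : Type} [CommRing R] {σ : Type} {S : Type} [CommRing S] [Algebra R S]

/-- the action of the multiplicative group with the weights `w` -/
def act (w : σ → ℤ) (v : Sˣ) (x : σ → S) (s : σ) : S := x s * ((v ^ w s : Sˣ) : S)

lemma units_coe_mul (a b : Sˣ) : ((a * b : Sˣ) : S) = (a : S) * (b : S) := rfl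

lemma act_monomial (w : σ → ℤ) (v : Sˣ) (x : σ → S) (m : σ →₀ ℕ) :
    (m.prod fun s n => act w v x s ^ n) =
      (m.prod fun s n => x s ^ n) * ((v ^ (Finsupp.weight w m) : Sˣ) : S) := by
  induction m using Finsupp.induction_linear with
  | zero => simp
  | add f g hf hg =>
    rw [Finsupp.prod_add_index' (fun _ => pow_zero _) (fun _ _ _ => pow_add _ _ _),
      Finsupp.prod_add_index' (fun _ => pow_zero _) (fun _ _ _ => pow_add _ _ _), hf, hg, map_add,
      zpow_add, units_coe_mul]
    ring
  | single s n =>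
    rw [Finsupp.prod_single_index (h := fun s n => act w v x s ^ n) (pow_zero _),
      Finsupp.prod_single_index (h := fun s n => x s ^ n) (pow_zero _), act,
      mul_pow, Finsupp.weight_single]
    congr 1
    rw [← Units.val_pow_eq_pow_val]
    congr 1
    rw [nsmul_eq_mul, mul_comm, zpow_mul, zpow_natCast]

/-- Weighted homogeneous polynomials and the action. -/
lemma aeval_act {w : σ → ℤ} {f : MvPolynomial σ R} {d : ℤ} (hf : IsWeightedHomogeneous w f d)
    (v : Sˣ) (x : σ → S) :
    aeval (act w v x) f = aeval x f * ((v ^ d : Sˣ) : S) := by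
  rw [aeval_def, aeval_def, eval₂_eq, eval₂_eq, Finset.sum_mul]
  apply Finset.sum_congr rfl
  intro m hm
  have h1 := act_monomial w v x m
  rw [Finsupp.prod, Finsupp.prod, hf (mem_support_iff.mp hm)] at h1
  rw [h1, mul_assoc]

lemma act_act_inv (w : σ → ℤ) (v : Sˣ) (x : σ → S) : act w v (act w v⁻¹ x) = x := by
  funext s
  rw [act, act, mul_assoc, ← units_coe_mul, ← mul_zpow, inv_mul_cancel, one_zpow, Units.val_one,
    mul_one]

lemma act_inv_act (w : σ → ℤ) (v : Sˣ) (x : σ → S) : act w v⁻¹ (act w v x) = x := by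
  funext s
  rw [act, act, mul_assoc, ← units_coe_mul, ← mul_zpow, mul_inv_cancel, one_zpow, Units.val_one,
    mul_one]

end wh

end Pool.Agent.U672.ST
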